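import Pool.Agent.N481.SY.Grp

/-!
# Invariant trees for the actions of `p`-groups, continued
-/

set_option autoImplicit false
set_option linter.unusedSectionVars false

open Finset

namespace Pool.Agent.N481.SY

universe u v

/-- the cardinality of the set of blocks -/
lemma card_blocks {p : ℕ} {X : Type u} [Finite X] (R : Setoid X)
    (hR : ∀ x, Nat.card {y // R x y} = p) : Nat.card X = Nat.card (Quotient R) * p := by
  classical
  have := Fintype.ofFinite X
  have := Fintype.ofFinite (Quotient R)
  rw [← Nat.card_congr (Equiv.sigmaFiberEquiv (Quotient.mk R)), Nat.card_sigma,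
    Nat.card_eq_fintype_card]
  have h1 : ∀ q : Quotient R, Nat.card {x // Quotient.mk R x = q} = p := by
    intro q
    obtain ⟨x, rfl⟩ := Quotient.exists_rep q
    rw [← hR x]
    refine Nat.card_congr (Equiv.subtypeEquivRight (fun y => ?_))
    rw [Quotient.eq]
    exact ⟨fun e => R.symm e, fun e => R.symm e⟩
  rw [Finset.sum_congr rfl (fun q _ => h1 q), Finset.sum_const, smul_eq_mul, Finset.card_univ]

/-- **Invariant trees.** A `p`-group acting on `p ^ m` points preserves a tree with `m` levels
and branchings of size `p`. -/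
theorem exists_lev (p : ℕ) [hp : Fact p.Prime] (P : Type v) [Group P] [Finite P]
    (hP : IsPGroup p P) : ∀ (m : ℕ) (X : Type u) [Finite X] [MulAction P X], Nat.card X = p ^ m →
    ∃ h : X → X → ℕ, Ult h ∧ (∀ (g : P) (x y : X), h (g • x) (g • y) = h x y) ∧
      (∀ x y, x ≠ y → h x y < m) ∧
      ∀ (E : Finset X) (j : ℕ), (∀ x ∈ E, ∀ y ∈ E, x ≠ y → h x y = j) → E.card ≤ p := by
  intro m
  induction m with
  | zero =>
    intro X _ _ hX
    rw [pow_zero] at hX
    have hsub : Subsingleton X := (Nat.card_eq_one_iff_unique.1 hX).1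
    refine ⟨fun _ _ => 0, ⟨fun _ _ => rfl, fun _ _ _ _ _ _ => by simp⟩, fun _ _ _ => rfl,
      fun x y hxy => absurd (Subsingleton.elim x y) hxy, fun E j _ => ?_⟩
    exact (Finset.card_le_one.2 (fun a _ b _ => Subsingleton.elim a b)).trans hp.out.one_lt.le
  | succ m ih =>
    intro X _ _ hX
    classical
    obtain ⟨R, hR1, hR2⟩ := blocks p P hP (Nat.card X) X rfl (by rw [hX]; exact dvd_pow_self p (by omega))
    have hcard := card_blocks R hR2
    let act : MulAction P (Quotient R) :=
      { smul := fun g => Quotient.map (fun x => g • x) (fun x y hxy => hR1 g x y hxy)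
        one_smul := by
          intro q
          induction q using Quotient.inductionOn with
          | _ x => exact congrArg (Quotient.mk R) (one_smul P x)
        mul_smul := by
          intro g g' q
          induction q using Quotient.inductionOn with
          | _ x => exact congrArg (Quotient.mk R) (mul_smul g g' x) }
    have hact : ∀ (g : P) (x : X), g • (Quotient.mk R x) = Quotient.mk R (g • x) := fun _ _ => rfl
    obtain ⟨h', hu', hi', hm', hK'⟩ := ih (Quotient R) (by
      rw [hX, pow_succ] at hcard
      exact (Nat.eq_of_mul_eq_mul_right hp.out.pos hcard).symm)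
    have hne : ∀ x y, ¬ R x y → Quotient.mk R x ≠ Quotient.mk R y := fun x y h e => h (Quotient.exact e)
    have heq : ∀ x y, R x y → Quotient.mk R x = Quotient.mk R y := fun x y h => Quotient.sound h
    obtain ⟨h, hh1, hh2⟩ : ∃ h : X → X → ℕ, (∀ x y, R x y → h x y = m) ∧
        ∀ x y, ¬ R x y → h x y = h' (Quotient.mk R x) (Quotient.mk R y) := by
      refine ⟨fun x y => if R x y then m else h' (Quotient.mk R x) (Quotient.mk R y), ?_, ?_⟩
      · intro x y hxy
        simp only [if_pos hxy]
      · intro x y hxy
        simp only [if_neg hxy]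
    have hlt : ∀ x y, ¬ R x y → h x y < m := fun x y hxy => by
      rw [hh2 x y hxy]; exact hm' _ _ (hne x y hxy)
    have hle : ∀ x y, h x y ≤ m := fun x y => by
      by_cases hxy : R x y
      · rw [hh1 x y hxy]
      · exact (hlt x y hxy).le
    refine ⟨h, ⟨?_, ?_⟩, ?_, ?_, ?_⟩
    · intro x y
      by_cases hxy : R x y
      · rw [hh1 x y hxy, hh1 y x (R.symm hxy)]
      · rw [hh2 x y hxy, hh2 y x (fun e => hxy (R.symm e)), hu'.symm]
    · intro x y z _ _ _
      by_cases hxz : R x z
      · rw [hh1 x z hxz]; exact (min_le_left _ _).trans (hle x y)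
      · rw [hh2 x z hxz]
        by_cases hxy : R x y
        · have hyz : ¬ R y z := fun e => hxz (R.trans hxy e)
          rw [hh2 y z hyz, heq x y hxy]
          exact min_le_right _ _
        · by_cases hyz : R y z
          · rw [hh2 x y hxy, ← heq y z hyz]
            exact min_le_left _ _
          · rw [hh2 x y hxy, hh2 y z hyz]
            exact hu'.ult _ _ _ (hne x y hxy) (hne y z hyz) (hne x z hxz)
    · intro g x y
      by_cases hxy : R x y
      · rw [hh1 x y hxy, hh1 _ _ (hR1 g x y hxy)]
      · have hgxy : ¬ R (g • x) (g • y) := by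
          intro e
          have h1 := hR1 g⁻¹ _ _ e
          rw [inv_smul_smul, inv_smul_smul] at h1
          exact hxy h1
        rw [hh2 x y hxy, hh2 _ _ hgxy, ← hact, ← hact, hi']
    · intro x y _
      exact Nat.lt_succ_of_le (hle x y)
    · intro E j hE
      by_cases hE1 : E.card ≤ 1
      · exact hE1.trans hp.out.one_lt.le
      obtain ⟨x, hx, y, hy, hxy⟩ := Finset.one_lt_card.1 (show 1 < E.card by omega)
      by_cases hRxy : R x y
      · -- everything is in one block
        have hj : j = m := by rw [← hE x hx y hy hxy, hh1 x y hRxy]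
        have hall : ∀ w ∈ E, R x w := by
          intro w hw
          by_contra hcon
          by_cases hxw : x = w
          · exact hcon (hxw ▸ R.refl x)
          · have h1 := hlt x w hcon
            rw [hE x hx w hw hxw] at h1
            omega
        rw [← hR2 x]
        have : Finite {y // R x y} := Subtype.finite
        have := Fintype.ofFinite {y // R x y}
        rw [Nat.card_eq_fintype_card, ← Fintype.card_coe]
        exact Fintype.card_le_of_injective (fun w : E => (⟨w.1, hall w.1 w.2⟩ : {y // R x y}))
          (fun a b e => Subtype.ext (congrArg (fun q : {y // R x y} => q.1) e))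
      · have hj : j < m := by rw [← hE x hx y hy hxy]; exact hlt x y hRxy
        have hnR : ∀ u ∈ E, ∀ w ∈ E, u ≠ w → ¬ R u w := by
          intro u hu w hw huw e
          have h1 := hh1 u w e
          rw [hE u hu w hw huw] at h1
          omega
        have hinj : Set.InjOn (Quotient.mk R) E := by
          intro u hu w hw e
          by_contra huw
          exact hne u w (hnR u hu w hw huw) e
        rw [← card_image_of_injOn hinj]
        apply hK' _ j
        intro a ha b hb hab
        obtain ⟨u, hu, rfl⟩ := mem_image.1 ha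
        obtain ⟨w, hw, rfl⟩ := mem_image.1 hb
        have huw : u ≠ w := fun e => hab (by rw [e])
        rw [← hh2 u w (hnR u hu w hw huw)]
        exact hE u hu w hw huw

/-- the same for at most `p ^ m` points -/
theorem exists_lev' (p : ℕ) [hp : Fact p.Prime] (P : Type v) [Group P] [Finite P]
    (hP : IsPGroup p P) (m : ℕ) (X : Type u) [Fintype X] [MulAction P X]
    (hX : Fintype.card X ≤ p ^ m) :
    ∃ h : X → X → ℕ, Ult h ∧ (∀ (g : P) (x y : X), h (g • x) (g • y) = h x y) ∧
      (∀ x y, x ≠ y → h x y < m) ∧
      ∀ (E : Finset X) (j : ℕ), (∀ x ∈ E, ∀ y ∈ E, x ≠ y → h x y = j) → E.card ≤ p := by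
  classical
  -- add fixed points
  let Z : Type u := X ⊕ ULift.{u} (Fin (p ^ m - Fintype.card X))
  let act : MulAction P Z :=
    { smul := fun g z => Sum.elim (fun x => Sum.inl (g • x)) (fun y => Sum.inr y) z
      one_smul := by
        rintro (x | y)
        · exact congrArg Sum.inl (one_smul P x)
        · rfl
      mul_smul := by
        rintro g g' (x | y)
        · exact congrArg Sum.inl (mul_smul g g' x)
        · rfl }
  have hact : ∀ (g : P) (x : X), g • (Sum.inl x : Z) = Sum.inl (g • x) := fun _ _ => rfl
  obtain ⟨h, hu, hi, hm, hK⟩ := exists_lev p P hP m Z (by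
    rw [Nat.card_eq_fintype_card, Fintype.card_sum, Fintype.card_ulift, Fintype.card_fin]
    omega)
  have hne : ∀ x y : X, x ≠ y → (Sum.inl x : Z) ≠ Sum.inl y := fun x y hxy e => hxy (Sum.inl_injective e)
  refine ⟨fun x y => h (Sum.inl x) (Sum.inl y), ⟨fun x y => hu.symm _ _, fun x y z h1 h2 h3 =>
    hu.ult _ _ _ (hne x y h1) (hne y z h2) (hne x z h3)⟩, fun g x y => ?_, fun x y hxy =>
    hm _ _ (hne x y hxy), fun E j hE => ?_⟩
  · exact hi g (Sum.inl x) (Sum.inl y)
  · rw [← card_image_of_injective E (Sum.inl_injective (β := ULift.{u} (Fin (p ^ m - Fintype.card X))))]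
    apply hK _ j
    intro a ha b hb hab
    obtain ⟨x, hx, rfl⟩ := mem_image.1 ha
    obtain ⟨y, hy, rfl⟩ := mem_image.1 hb
    exact hE x hx y hy (fun e => hab (by rw [e]))

/-- **Invariant tournaments.** A `p`-group with `p` odd preserves a tournament. -/
theorem exists_sign (p : ℕ) [hp : Fact p.Prime] (hp2 : p ≠ 2) (P : Type v) [Group P] [Finite P]
    (hP : IsPGroup p P) (X : Type u) [Finite X] [MulAction P X] :
    ∃ s : X → X → Bool, (∀ (g : P) (x y : X), s (g • x) (g • y) = s x y) ∧
      ∀ x y, x ≠ y → s x y ≠ s y x := by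
  classical
  have : Finite (MulAction.orbitRel.Quotient P (X × X)) := Quotient.finite _
  obtain ⟨n, ⟨e⟩⟩ := Finite.exists_equiv_fin (MulAction.orbitRel.Quotient P (X × X))
  obtain ⟨o, ho⟩ : ∃ o : X × X → ℕ, (∀ a b, o a = o b ↔ ∃ g : P, g • b = a) := by
    refine ⟨fun a => (e (Quotient.mk _ a)).val, fun a b => ?_⟩
    rw [Fin.val_inj, e.injective.eq_iff]
    rw [Quotient.eq]
    rfl
  refine ⟨fun x y => decide (o (x, y) < o (y, x)), ?_, ?_⟩
  · intro g x y
    have h1 : o (g • x, g • y) = o (x, y) := (ho _ _).2 ⟨g, rfl⟩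
    have h2 : o (g • y, g • x) = o (y, x) := (ho _ _).2 ⟨g, rfl⟩
    simp only [h1, h2]
  · intro x y hxy
    have hne : o (x, y) ≠ o (y, x) := by
      intro h1
      obtain ⟨g, hg⟩ := (ho _ _).1 h1
      have hg1 : g • y = x := congrArg Prod.fst hg
      have hg2 : g • x = y := congrArg Prod.snd hg
      obtain ⟨k, hk⟩ := hP g
      have hodd : Odd (p ^ k) := (hp.out.odd_of_ne_two hp2).pow
      obtain ⟨l, hl⟩ := hodd
      rw [hl] at hk
      have h3 : ∀ l : ℕ, g ^ (2 * l) • x = x := by
        intro l
        induction l with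
        | zero => simp
        | succ l ih =>
          have e1 : 2 * (l + 1) = 2 * l + 1 + 1 := by ring
          rw [e1, pow_succ, pow_succ, mul_smul, mul_smul, hg2, hg1, ih]
      have h4 : g ^ (2 * l + 1) • x = y := by
        have h5 : g ^ (2 * l + 1) = g * g ^ (2 * l) := pow_succ' g (2 * l)
        rw [h5, mul_smul, h3, hg2]
      rw [hk, one_smul] at h4
      exact hxy h4
    show decide (o (x, y) < o (y, x)) ≠ decide (o (y, x) < o (x, y))
    rcases lt_or_gt_of_ne hne with h1 | h1
    · rw [decide_eq_true h1, decide_eq_false (by omega)]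
      simp
    · rw [decide_eq_true h1, decide_eq_false (by omega)]
      simp

end Pool.Agent.N481.SY
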