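import Pool.Agent.N481.SY.Zm
import Pool.Agent.N481.SY.Act

/-!
# Transfer of colourings
-/

set_option autoImplicit false
set_option linter.unusedSectionVars false

open Finset

namespace Pool.Agent.N481.SY

/-! ## Transfer -/

section transfer

variable {V W κ μ : Type*} [DecidableEq V] [DecidableEq W]

lemma NoHom.mono {U U' : Finset V} {r n : ℕ} {c : Finset V → κ} (hc : NoHom U r n c) (h : U' ⊆ U) :
    NoHom U' r n c := fun S hS => hc S (hS.trans h)

lemma NoHom.up {U : Finset V} {r n n' : ℕ} {c : Finset V → κ} (hc : NoHom U r n c) (h : n ≤ n') :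
    NoHom U r n' c := by
  intro S hS hSc b
  obtain ⟨S', hS', hc'⟩ := Finset.exists_subset_card_eq (show n ≤ S.card by omega)
  obtain ⟨e, he, h1, h2⟩ := hc S' (hS'.trans hS) hc' b
  exact ⟨e, he.trans hS', h1, h2⟩

lemma NoHom.pull {U : Finset V} {U' : Finset W} {r n : ℕ} {c : Finset W → κ} (hc : NoHom U' r n c)
    (f : V → W) (hf : Set.InjOn f U) (hfU : ∀ x ∈ U, f x ∈ U') :
    NoHom U r n (fun F => c (F.image f)) := by
  intro S hS hSc b
  have hinj : Set.InjOn f S := hf.mono (by exact_mod_cast hS)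
  obtain ⟨e, he, h1, h2⟩ := hc (S.image f) (by
    intro y hy
    obtain ⟨x, hx, rfl⟩ := mem_image.1 hy
    exact hfU x (hS hx)) (by rw [card_image_of_injOn hinj, hSc]) b
  have hI : (S.filter (fun x => f x ∈ e)).image f = e := by
    ext y
    simp only [mem_image, mem_filter]
    constructor
    · rintro ⟨x, ⟨-, h3⟩, rfl⟩; exact h3
    · intro hy
      obtain ⟨x, hx, rfl⟩ := mem_image.1 (he hy)
      exact ⟨x, ⟨hx, hy⟩, rfl⟩
  refine ⟨S.filter (fun x => f x ∈ e), filter_subset _ _, ?_, ?_⟩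
  · rw [← h1]
    conv_rhs => rw [← hI]
    rw [card_image_of_injOn (hinj.mono (by exact_mod_cast filter_subset _ _))]
  · simp only [hI]
    exact h2

lemma NoHom.recolour {U : Finset V} {r n : ℕ} {c : Finset V → κ} (hc : NoHom U r n c)
    (φ : κ ≃ μ) : NoHom U r n (fun F => φ (c F)) := by
  intro S hS hSc b
  obtain ⟨e, he, h1, h2⟩ := hc S hS hSc (φ.symm b)
  exact ⟨e, he, h1, fun h3 => h2 (by rw [← h3]; simp)⟩

end transfer

end Pool.Agent.N481.SY
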