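import Pool.Agent.N481.SY.Tree

/-!
# Chains of top leaves, and the colouring for `r ≥ 4`
-/

set_option autoImplicit false
set_option linter.unusedSectionVars false

open Finset

namespace Pool.Agent.N481.SY

variable {V κ : Type*} [DecidableEq V] {h : V → V → ℕ}

/-- peeling: the leaves `b i` are removed one after the other -/
lemma peel (Q : V → Finset V → Prop) (t : ℕ) (N : ℕ) : ∀ S : Finset V,
    (∀ X ⊆ S, t ≤ X.card → ∃ b ∈ X, Q b X) → S.card = t + N →
    ∃ (b : ℕ → V) (X : ℕ → Finset V), X 0 = S ∧ ∀ i ≤ N, X i ⊆ S ∧ b i ∈ X i ∧ Q (b i) (X i) ∧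
      X (i + 1) = (X i).erase (b i) := by
  induction N with
  | zero =>
    intro S hQ hS
    obtain ⟨b, hb, hQb⟩ := hQ S (Subset.refl _) (by omega)
    refine ⟨fun _ => b, fun i => if i = 0 then S else S.erase b, by simp, fun i hi => ?_⟩
    have hi0 : i = 0 := by omega
    subst hi0
    simp only [if_true, Nat.zero_add, one_ne_zero, if_false]
    exact ⟨Subset.refl _, hb, hQb, trivial⟩
  | succ N ih =>
    intro S hQ hS
    obtain ⟨b, hb, hQb⟩ := hQ S (Subset.refl _) (by omega)
    obtain ⟨b', X', h0, h1⟩ := ih (S.erase b) (fun X hX => hQ X (hX.trans (erase_subset _ _)))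
      (by rw [card_erase_of_mem hb]; omega)
    refine ⟨fun i => if i = 0 then b else b' (i - 1), fun i => if i = 0 then S else X' (i - 1),
      by simp, fun i hi => ?_⟩
    rcases Nat.eq_zero_or_pos i with rfl | hpos
    · simp only [if_true, Nat.zero_add, one_ne_zero, if_false, Nat.sub_self]
      exact ⟨Subset.refl _, hb, hQb, h0⟩
    · have hne : i ≠ 0 := by omega
      have hne' : i + 1 ≠ 0 := by omega
      simp only [if_neg hne, if_neg hne']
      obtain ⟨g1, g2, g3, g4⟩ := h1 (i - 1) (by omega)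
      refine ⟨g1.trans (erase_subset _ _), g2, g3, ?_⟩
      have e : i + 1 - 1 = (i - 1) + 1 := by omega
      rw [e]
      exact g4

/-- the data obtained by peeling top leaves -/
structure Chn (h : V → V → ℕ) (S : Finset V) (N : ℕ) (b : ℕ → V) (z : V) (η : ℕ → ℕ) : Prop where
  mem : ∀ i ≤ N, b i ∈ S
  memz : z ∈ S
  ne : ∀ i j, i < j → j ≤ N → b i ≠ b j
  nez : ∀ i ≤ N, b i ≠ z
  ht : ∀ i j, i < j → j ≤ N → h (b i) (b j) = η i
  htz : ∀ i ≤ N, h (b i) z = η i
  mono : ∀ i j, i < j → j ≤ N → η i < η j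

/-- the chain of the top leaves, with a property of them -/
lemma chain_of (Q : V → Finset V → Prop) {t : ℕ} (ht : 2 ≤ t) (N : ℕ) (S : Finset V)
    (hQ : ∀ X ⊆ S, t ≤ X.card → ∃ b, Top h X b ∧ Q b X) (hS : S.card = t + N) :
    ∃ (b : ℕ → V) (z : V) (η : ℕ → ℕ) (X : ℕ → Finset V), Chn h S N b z η ∧
      (∀ i ≤ N, Q (b i) (X i)) ∧ (∀ i j, i ≤ j → j ≤ N → b j ∈ X i) ∧ ∀ i ≤ N, z ∈ X i := by
  obtain ⟨b, X, h0, h1⟩ := peel (fun b X => Top h X b ∧ Q b X) t N S
    (fun X hX hc => by
      obtain ⟨b, hb, hq⟩ := hQ X hX hc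
      exact ⟨b, hb.1, hb, hq⟩) hS
  have hcard : ∀ i ≤ N + 1, (X i).card + i = t + N := by
    intro i
    induction i with
    | zero => intro _; rw [h0]; omega
    | succ i ih =>
      intro hi
      have h2 := ih (by omega)
      obtain ⟨-, g2, -, g4⟩ := h1 i (by omega)
      rw [g4, card_erase_of_mem g2]
      have : 0 < (X i).card := card_pos.2 ⟨_, g2⟩
      omega
  have hmono : ∀ i j, i ≤ j → j ≤ N + 1 → X j ⊆ X i := by
    intro i j hij
    induction j, hij using Nat.le_induction with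
    | base => intro _; exact Subset.refl _
    | succ j hij ih =>
      intro hj
      rw [(h1 j (by omega)).2.2.2]
      exact (erase_subset _ _).trans (ih (by omega))
  have hne : ∀ i j, i < j → j ≤ N + 1 → ∀ y ∈ X j, y ≠ b i := by
    intro i j hij hj y hy
    have h2 := hmono (i + 1) j hij hj hy
    rw [(h1 i (by omega)).2.2.2] at h2
    exact (mem_erase.1 h2).1
  obtain ⟨z, hz⟩ : (X (N + 1)).Nonempty := by
    rw [← card_pos]
    have := hcard (N + 1) le_rfl
    omega
  have htop : ∀ i, i ≤ N → ∃ k, (∀ x ∈ X i, x ≠ b i → h (b i) x = k) ∧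
      ∀ x ∈ X i, ∀ y ∈ X i, x ≠ b i → y ≠ b i → x ≠ y → k < h x y :=
    fun i hi => (h1 i hi).2.2.1.1.2
  choose! η hη1 hη2 using htop
  refine ⟨b, z, η, X, ⟨?_, ?_, ?_, ?_, ?_, ?_, ?_⟩, fun i hi => (h1 i hi).2.2.1.2, ?_, ?_⟩
  · exact fun i hi => (h1 i hi).1 (h1 i hi).2.1
  · rw [← h0]; exact hmono 0 (N + 1) (Nat.zero_le _) le_rfl hz
  · intro i j hij hj
    exact (hne i j hij (by omega) (b j) (h1 j hj).2.1).symm
  · intro i hi
    exact (hne i (N + 1) (by omega) le_rfl z hz).symm
  · intro i j hij hj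
    exact hη1 i (by omega) (b j) (hmono i j hij.le (by omega) (h1 j hj).2.1)
      (hne i j hij (by omega) (b j) (h1 j hj).2.1)
  · intro i hi
    exact hη1 i hi z (hmono i (N + 1) (by omega) le_rfl hz) (hne i (N + 1) (by omega) le_rfl z hz)
  · intro i j hij hj
    have h2 := hη2 i (by omega) (b j) (hmono i j hij.le (by omega) (h1 j hj).2.1) z
      (hmono i (N + 1) (by omega) le_rfl hz) (hne i j hij (by omega) (b j) (h1 j hj).2.1)
      (hne i (N + 1) (by omega) le_rfl z hz) (hne j (N + 1) (by omega) le_rfl z hz).symm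
    rwa [hη1 j hj z (hmono j (N + 1) (by omega) le_rfl hz) (hne j (N + 1) (by omega) le_rfl z hz)]
      at h2
  · exact fun i j hij hj => hmono i j hij (by omega) (h1 j hj).2.1
  · exact fun i hi => hmono i (N + 1) (by omega) le_rfl hz

/-- the subset of the chain with the indices `I` and the last leaf -/
def leaves (b : ℕ → V) (z : V) (I : Finset ℕ) : Finset V := insert z (I.image b)

section chn

variable {S : Finset V} {N : ℕ} {b : ℕ → V} {z : V} {η : ℕ → ℕ}

lemma Chn.sub (C : Chn h S N b z η) {I : Finset ℕ} (hI : I ⊆ range (N + 1)) : leaves b z I ⊆ S := by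
  intro x hx
  unfold leaves at hx
  rw [mem_insert, mem_image] at hx
  rcases hx with rfl | ⟨i, hi, rfl⟩
  · exact C.memz
  · exact C.mem i (by have := mem_range.1 (hI hi); omega)

lemma Chn.inj (C : Chn h S N b z η) {i j : ℕ} (hi : i ≤ N) (hj : j ≤ N) (e : b i = b j) : i = j := by
  rcases lt_trichotomy i j with h1 | h1 | h1
  · exact absurd e (C.ne i j h1 hj)
  · exact h1
  · exact absurd e.symm (C.ne j i h1 hi)

lemma Chn.card (C : Chn h S N b z η) {I : Finset ℕ} (hI : I ⊆ range (N + 1)) :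
    (leaves b z I).card = I.card + 1 := by
  unfold leaves
  rw [card_insert_of_notMem, card_image_of_injOn]
  · intro i hi j hj e
    exact C.inj (by have := mem_range.1 (hI hi); omega) (by have := mem_range.1 (hI hj); omega) e
  · rw [mem_image]
    rintro ⟨i, hi, e⟩
    exact C.nez i (by have := mem_range.1 (hI hi); omega) e

lemma Chn.eta_inj (C : Chn h S N b z η) {i j : ℕ} (hi : i ≤ N) (hj : j ≤ N) (e : η i = η j) :
    i = j := by
  rcases lt_trichotomy i j with h1 | h1 | h1
  · exact absurd e (C.mono i j h1 hj).ne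
  · exact h1
  · exact absurd e.symm (C.mono j i h1 hi).ne

lemma Chn.hts (C : Chn h S N b z η) (hu : Ult h) {I : Finset ℕ} (hI : I ⊆ range (N + 1)) :
    hts h (leaves b z I) = I.image η := by
  ext k
  unfold Pool.Agent.N481.SY.hts leaves
  simp only [mem_image, mem_offDiag, mem_insert, Prod.exists]
  constructor
  · rintro ⟨x, y, ⟨hx, hy, hxy⟩, rfl⟩
    rcases hx with rfl | ⟨i, hi, rfl⟩
    · rcases hy with rfl | ⟨j, hj, rfl⟩
      · exact absurd rfl hxy
      · refine ⟨j, hj, ?_⟩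
        rw [hu.symm, C.htz j (by have := mem_range.1 (hI hj); omega)]
    · have hiN : i ≤ N := by have := mem_range.1 (hI hi); omega
      rcases hy with rfl | ⟨j, hj, rfl⟩
      · exact ⟨i, hi, (C.htz i hiN).symm⟩
      · have hjN : j ≤ N := by have := mem_range.1 (hI hj); omega
        rcases lt_trichotomy i j with h1 | h1 | h1
        · exact ⟨i, hi, (C.ht i j h1 hjN).symm⟩
        · exact absurd (by rw [h1]) hxy
        · refine ⟨j, hj, ?_⟩
          rw [hu.symm, C.ht j i h1 hiN]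
  · rintro ⟨i, hi, rfl⟩
    have hiN : i ≤ N := by have := mem_range.1 (hI hi); omega
    exact ⟨b i, z, ⟨Or.inr ⟨i, hi, rfl⟩, Or.inl rfl, C.nez i hiN⟩, C.htz i hiN⟩

/-- the leaf with the smallest index is the top leaf -/
lemma Chn.top (C : Chn h S N b z η) (hu : Ult h) {I : Finset ℕ} (hI : I ⊆ range (N + 1)) {i : ℕ}
    (hi : i ∈ I) (hmin : ∀ j ∈ I, i ≤ j) : Top h (leaves b z I) (b i) := by
  have hiN : i ≤ N := by have := mem_range.1 (hI hi); omega
  unfold leaves
  refine ⟨by simp only [mem_insert, mem_image]; exact Or.inr ⟨i, hi, rfl⟩, η i, ?_, ?_⟩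
  · intro x hx hxi
    rw [mem_insert, mem_image] at hx
    rcases hx with rfl | ⟨j, hj, rfl⟩
    · exact C.htz i hiN
    · have hjN : j ≤ N := by have := mem_range.1 (hI hj); omega
      have hij : i < j := lt_of_le_of_ne (hmin j hj) (fun e => hxi (by rw [e]))
      exact C.ht i j hij hjN
  · have key : ∀ j ∈ I, b j ≠ b i → i < j ∧ j ≤ N := fun j hj hne =>
      ⟨lt_of_le_of_ne (hmin j hj) (fun e => hne (by rw [e])), by have := mem_range.1 (hI hj); omega⟩
    intro x hx y hy hxi hyi hxy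
    rw [mem_insert, mem_image] at hx hy
    rcases hx with rfl | ⟨j, hj, rfl⟩
    · rcases hy with rfl | ⟨l, hl, rfl⟩
      · exact absurd rfl hxy
      · obtain ⟨g1, g2⟩ := key l hl hyi
        rw [hu.symm, C.htz l g2]
        exact C.mono i l g1 g2
    · obtain ⟨g1, g2⟩ := key j hj hxi
      rcases hy with rfl | ⟨l, hl, rfl⟩
      · rw [C.htz j g2]
        exact C.mono i j g1 g2
      · obtain ⟨g3, g4⟩ := key l hl hyi
        rcases lt_trichotomy j l with h1 | h1 | h1
        · rw [C.ht j l h1 g4]; exact C.mono i j g1 g2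
        · exact absurd (by rw [h1]) hxy
        · rw [hu.symm, C.ht l j h1 g2]; exact C.mono i l g3 g4

lemma Chn.erase (C : Chn h S N b z η) {I : Finset ℕ} (hI : I ⊆ range (N + 1)) {i : ℕ} (hi : i ∈ I) :
    (leaves b z I).erase (b i) = leaves b z (I.erase i) := by
  have hiN : i ≤ N := by have := mem_range.1 (hI hi); omega
  ext x
  unfold leaves
  simp only [mem_erase, mem_insert, mem_image]
  constructor
  · rintro ⟨h1, rfl | ⟨j, hj, rfl⟩⟩
    · exact Or.inl rfl
    · exact Or.inr ⟨j, ⟨fun e => h1 (by rw [e]), hj⟩, rfl⟩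
  · rintro (rfl | ⟨j, ⟨hj1, hj2⟩, rfl⟩)
    · exact ⟨(C.nez i hiN).symm, Or.inl rfl⟩
    · refine ⟨fun e => hj1 (C.inj (by have := mem_range.1 (hI hj2); omega) hiN e), Or.inr ⟨j, hj2, rfl⟩⟩

/-- a long chain on which the colour is given by `χ` is not homogeneous -/
lemma Chn.short (C : Chn h S N b z η) {m r n : ℕ} {χ : Finset ℕ → κ}
    (hχ : NoHom (range m) r n χ) (hm : ∀ x ∈ S, ∀ y ∈ S, x ≠ y → h x y < m) (β : κ)
    (J : Finset ℕ) (hJ : J ⊆ range (N + 1))
    (hall : ∀ I ⊆ J, I.card = r → χ (I.image η) = β) : J.card < n := by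
  classical
  by_contra hcon
  push Not at hcon
  obtain ⟨J', hJ', hc⟩ := Finset.exists_subset_card_eq hcon
  have hJN : ∀ i ∈ J', i ≤ N := fun i hi => by have := mem_range.1 (hJ (hJ' hi)); omega
  have hinj : Set.InjOn η J' := fun i hi j hj e => C.eta_inj (hJN i hi) (hJN j hj) e
  obtain ⟨e, he, hec, hne⟩ := hχ (J'.image η) (by
    intro k hk
    obtain ⟨i, hi, rfl⟩ := mem_image.1 hk
    rw [mem_range, ← C.htz i (hJN i hi)]
    exact hm _ (C.mem i (hJN i hi)) _ C.memz (C.nez i (hJN i hi)))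
    (by rw [card_image_of_injOn hinj, hc]) β
  apply hne
  obtain ⟨I, hI, hIe⟩ : ∃ I ⊆ J', I.image η = e := by
    refine ⟨J'.filter (fun i => η i ∈ e), filter_subset _ _, ?_⟩
    ext k
    simp only [mem_image, mem_filter]
    constructor
    · rintro ⟨i, ⟨-, h2⟩, rfl⟩; exact h2
    · intro hk
      obtain ⟨i, hi, rfl⟩ := mem_image.1 (he hk)
      exact ⟨i, ⟨hi, hk⟩, rfl⟩
  rw [← hIe]
  refine hall I (hI.trans hJ') ?_
  rw [← hec, ← hIe, card_image_of_injOn (hinj.mono (by exact_mod_cast hI))]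

end chn

/-! ## The colouring for `r ≥ 4` -/

open Classical in
/-- the colouring determined by the tree -/
noncomputable def col (h : V → V → ℕ) (χ : Finset ℕ → κ) (β ρ : κ) (F : Finset V) : κ :=
  if ∃ a, Top h F a ∧ ∃ b, Top h (F.erase a) b then χ (hts h F)
  else if ∃ a, Top h F a then ρ else β

lemma col_chn {S : Finset V} {N : ℕ} {b : ℕ → V} {z : V} {η : ℕ → ℕ} (C : Chn h S N b z η)
    (hu : Ult h) {r : ℕ} (hr : 2 ≤ r) (χ : Finset ℕ → κ) (β ρ : κ) {I : Finset ℕ}
    (hI : I ⊆ range (N + 1)) (hIc : I.card = r) :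
    col h χ β ρ (leaves b z I) = χ (I.image η) := by
  have hne : I.Nonempty := card_pos.1 (by omega)
  obtain ⟨i, hi, himin⟩ : ∃ i ∈ I, ∀ j ∈ I, i ≤ j := ⟨I.min' hne, I.min'_mem hne, fun j hj => I.min'_le j hj⟩
  have hne2 : (I.erase i).Nonempty := card_pos.1 (by rw [card_erase_of_mem hi]; omega)
  obtain ⟨j, hj, hjmin⟩ : ∃ j ∈ I.erase i, ∀ l ∈ I.erase i, j ≤ l :=
    ⟨(I.erase i).min' hne2, (I.erase i).min'_mem hne2, fun l hl => (I.erase i).min'_le l hl⟩
  have hI2 : I.erase i ⊆ range (N + 1) := (erase_subset _ _).trans hI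
  have h1 := C.top hu hI hi himin
  have h2 := C.top hu hI2 hj hjmin
  rw [← C.erase hI hi] at h2
  unfold col
  rw [if_pos ⟨b i, h1, b j, h2⟩, C.hts hu hI]

/-- uniqueness of the top leaf of a set with a leaf on top of a class -/
lemma top_unique (hu : Ult h) {F : Finset V} {a a' : V} (ha : Top h F a) (ha' : Top h F a')
    (hc : 3 ≤ F.card) : a = a' := by
  by_contra hne
  obtain ⟨x, hx, hxa⟩ : ∃ x ∈ F, x ≠ a ∧ x ≠ a' := by
    have h1 : ({a, a'} : Finset V).card < F.card := lt_of_le_of_lt card_le_two (by omega)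
    obtain ⟨x, hx, hx'⟩ := Finset.exists_mem_notMem_of_card_lt_card h1
    simp only [mem_insert, mem_singleton, not_or] at hx'
    exact ⟨x, hx, hx'⟩
  obtain ⟨haF, k, h1, h2⟩ := ha
  obtain ⟨haF', k', h3, h4⟩ := ha'
  have e1 := h1 a' haF' (Ne.symm hne)
  have e2 := h1 x hx hxa.1
  have e3 := h3 a haF hne
  have e4 := h3 x hx hxa.2
  have e5 := h2 x hx a' haF' hxa.1 (Ne.symm hne) hxa.2
  rw [hu.symm x a'] at e5
  rw [hu.symm a' a] at e3
  omega

/-- **Stepping up, `r ≥ 4`.** -/
theorem col_noHom (hu : Ult h) {K m r n : ℕ} (hr : 4 ≤ r) (U : Finset V)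
    (hK : ∀ (E : Finset V) (j : ℕ), (∀ x ∈ E, ∀ y ∈ E, x ≠ y → h x y = j) → E.card ≤ K)
    (hm : ∀ x ∈ U, ∀ y ∈ U, x ≠ y → h x y < m) (χ : Finset ℕ → κ) (hχ : NoHom (range m) r n χ)
    (β ρ : κ) (hβρ : β ≠ ρ) (hK1 : 1 ≤ K) : NoHom U (r + 1) (K * (n + r)) (col h χ β ρ) := by
  intro S hSU hS γ
  by_contra hcon
  push Not at hcon
  have hmS : ∀ T ⊆ S, ∀ x ∈ T, ∀ y ∈ T, x ≠ y → h x y < m := fun T hT x hx y hy hxy =>
    hm x (hSU (hT hx)) y (hSU (hT hy)) hxy
  have hScard : n + r ≤ S.card := by rw [hS]; exact Nat.le_mul_of_pos_left _ hK1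
  by_cases hγ : γ = β
  · -- no colour `ρ`: a large class
    obtain ⟨A, hAS, a, haS, haA, hsz, k, hak, hAk⟩ := big_class hu hK S (by omega)
    have hAc : n + r ≤ A.card := by
      rw [hS] at hsz
      exact Nat.le_of_mul_le_mul_left hsz hK1
    -- every `r`-subset of `A` has a top leaf
    have htop : ∀ F ⊆ A, F.card = r → ∃ b, Top h F b := by
      intro F hF hFc
      have haF : a ∉ F := fun e => haA (hF e)
      have h1 := hcon (insert a F) (insert_subset haS (hF.trans hAS))
        (by rw [card_insert_of_notMem haF, hFc])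
      have hta : Top h (insert a F) a := by
        refine ⟨mem_insert_self _ _, k, ?_, ?_⟩
        · intro x hx hxa
          exact hak x (hF (mem_of_mem_insert_of_ne hx hxa))
        · intro x hx y hy hxa hya hxy
          exact hAk x (hF (mem_of_mem_insert_of_ne hx hxa)) y (hF (mem_of_mem_insert_of_ne hy hya)) hxy
      by_contra hno
      have h2 : ¬ ∃ a', Top h (insert a F) a' ∧ ∃ b, Top h ((insert a F).erase a') b := by
        rintro ⟨a', ha', b, hb⟩
        have e := top_unique hu hta ha' (by rw [card_insert_of_notMem haF, hFc]; omega)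
        subst e
        rw [erase_insert haF] at hb
        exact hno ⟨b, hb⟩
      unfold col at h1
      rw [if_neg h2, if_pos ⟨a, hta⟩, hγ] at h1
      exact hβρ h1.symm
    obtain ⟨b, z, η, X, C, -, -, -⟩ := chain_of (h := h) (fun _ _ => True) (t := r) (by omega)
      (A.card - r) A (fun X hX hc => by
        obtain ⟨b, hb⟩ := top_of_all hu hr X hc (fun F hF => htop F (hF.trans hX))
        exact ⟨b, hb, trivial⟩) (by omega)
    have h3 := C.short hχ (hmS A hAS) β (range (A.card - r + 1)) (Subset.refl _) (fun I hI hIc => by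
      rw [← col_chn C hu (by omega) χ β ρ hI hIc,
        hcon _ ((C.sub hI).trans hAS) (by rw [C.card hI, hIc]), hγ])
    rw [card_range] at h3
    omega
  · -- every `(r+1)`-subset has a top leaf
    have htop : ∀ F ⊆ S, F.card = r + 1 → ∃ b, Top h F b := by
      intro F hF hFc
      by_contra hno
      have h1 := hcon F hF hFc
      have h2 : ¬ ∃ a', Top h F a' ∧ ∃ b, Top h (F.erase a') b := by
        rintro ⟨a', ha', -⟩
        exact hno ⟨a', ha'⟩
      unfold col at h1
      rw [if_neg h2, if_neg hno] at h1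
      exact hγ h1.symm
    by_cases hn : n = 0
    · obtain ⟨e, -, -, hne⟩ := hχ ∅ (by simp) (by simp [hn]) γ
      obtain ⟨e', he', hc', -⟩ := hχ ∅ (by simp) (by simp [hn]) γ
      have : e' = ∅ := subset_empty.1 he'
      rw [this] at hc'
      simp at hc'
      omega
    obtain ⟨b, z, η, X, C, -, -, -⟩ := chain_of (h := h) (fun _ _ => True) (t := r + 1) (by omega)
      (S.card - (r + 1)) S (fun X hX hc => by
        obtain ⟨b, hb⟩ := top_of_all hu (by omega) X hc (fun F hF => htop F (hF.trans hX))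
        exact ⟨b, hb, trivial⟩) (by omega)
    have h3 := C.short hχ (hmS S (Subset.refl _)) γ (range (S.card - (r + 1) + 1)) (Subset.refl _)
      (fun I hI hIc => by
        rw [← col_chn C hu (by omega) χ β ρ hI hIc]
        exact hcon _ (C.sub hI) (by rw [C.card hI, hIc]))
    rw [card_range] at h3
    omega

end Pool.Agent.N481.SY
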