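import Pool.Agent.N481.SY.Triple

/-!
# Ramsey numbers of the colourings invariant under `p`-groups
-/

set_option autoImplicit false
set_option linter.unusedSectionVars false

open Finset

namespace Pool.Agent.N481.SY

open Pool.Agent.N584.TI

/-- Some finite `p`-group `P` acting on a set `X` with `N` points has the property that every
`P`-invariant colouring of the `r`-subsets of `X` with the set `κ` of colours has a homogeneous
subset with `n` elements. -/
def SymArrow (p : ℕ) (κ : Type) (r n N : ℕ) : Prop :=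
  ∃ (P X : Type) (_ : Group P) (_ : Finite P) (_ : Fintype X) (_ : DecidableEq X)
    (_ : MulAction P X), IsPGroup p P ∧ Fintype.card X = N ∧
    ∀ c : Finset X → κ,
      (∀ (g : P) (A : Finset X), A.card = r → c (A.image (fun x => g • x)) = c A) →
      ∃ S : Finset X, S.card = n ∧ ∃ b : κ, ∀ A ⊆ S, A.card = r → c A = b

/-- The least number of points for which this happens: on fewer points all `p`-groups have
invariant colourings without homogeneous subsets with `n` elements. -/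
noncomputable def SymRam (p : ℕ) (κ : Type) (r n : ℕ) : ℕ := sInf {N | SymArrow p κ r n N}

section basic

variable {p : ℕ} {κ : Type} {r n n' N : ℕ}

lemma symArrow_of_arrow (h : Arrow (κ := κ) AllCol r n N) : SymArrow p κ r n N := by
  classical
  refine ⟨Unit, Fin N, inferInstance, inferInstance, inferInstance, inferInstance,
    { smul := fun _ x => x, one_smul := fun _ => rfl, mul_smul := fun _ _ _ => rfl },
    fun g => ⟨0, Subsingleton.elim _ _⟩, Fintype.card_fin N, fun c _ => ?_⟩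
  obtain ⟨S, hS, hSn, b, hb⟩ := h (fun A => c (univ.filter (fun i : Fin N => (i : ℕ) ∈ A))) trivial
  have key : ∀ A : Finset ℕ, A ⊆ range N →
      (univ.filter (fun i : Fin N => (i : ℕ) ∈ A)).map Fin.valEmbedding = A := by
    intro A hA
    ext x
    simp only [mem_map, mem_filter, mem_univ, true_and, Fin.valEmbedding_apply]
    constructor
    · rintro ⟨i, hi, rfl⟩
      exact hi
    · intro hx
      exact ⟨⟨x, mem_range.1 (hA hx)⟩, hx, rfl⟩
  refine ⟨univ.filter (fun i : Fin N => (i : ℕ) ∈ S), ?_, b, ?_⟩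
  · rw [← card_map Fin.valEmbedding, key S hS, hSn]
  · intro e he hec
    have h1 : e.map Fin.valEmbedding ⊆ S := by
      intro x hx
      obtain ⟨i, hi, rfl⟩ := mem_map.1 hx
      exact (mem_filter.1 (he hi)).2
    have h2 := hb _ h1 (by rw [card_map, hec])
    have h3 : univ.filter (fun i : Fin N => (i : ℕ) ∈ e.map Fin.valEmbedding) = e := by
      ext i
      simp only [mem_filter, mem_univ, true_and, mem_map, Fin.valEmbedding_apply]
      constructor
      · rintro ⟨j, hj, hji⟩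
        rwa [← Fin.ext hji]
      · intro hi
        exact ⟨i, hi, rfl⟩
    rwa [h3] at h2

lemma SymRam_le_Ram [Fintype κ] [Nonempty κ] (hr : 1 ≤ r) :
    SymRam p κ r n ≤ Ram (κ := κ) AllCol r n :=
  Nat.sInf_le (symArrow_of_arrow (Ram_spec hr))

lemma SymRam_spec [Fintype κ] [Nonempty κ] (hr : 1 ≤ r) :
    SymArrow p κ r n (SymRam p κ r n) :=
  Nat.sInf_mem (s := {N | SymArrow p κ r n N}) ⟨_, symArrow_of_arrow (Ram_spec hr)⟩

lemma SymArrow.mono_n (h : SymArrow p κ r n N) (hn : n' ≤ n) : SymArrow p κ r n' N := by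
  obtain ⟨P, X, i1, i2, i3, i4, i5, h1, h2, h3⟩ := h
  refine ⟨P, X, i1, i2, i3, i4, i5, h1, h2, fun c hc => ?_⟩
  obtain ⟨S, hS, b, hb⟩ := h3 c hc
  obtain ⟨T, hTS, hT⟩ := exists_subset_card_eq (hn.trans hS.ge)
  exact ⟨T, hT, b, fun A hA => hb A (hA.trans hTS)⟩

lemma SymRam_mono [Fintype κ] [Nonempty κ] (hr : 1 ≤ r) : Monotone (SymRam p κ r) :=
  fun _ _ h => Nat.sInf_le ((SymRam_spec hr).mono_n h)

lemma le_SymRam [Fintype κ] [Nonempty κ] (hr : 1 ≤ r) : n ≤ SymRam p κ r n := by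
  obtain ⟨P, X, i1, i2, i3, i4, i5, h1, h2, h3⟩ := SymRam_spec (p := p) (κ := κ) (n := n) hr
  obtain ⟨S, hS, -⟩ := h3 (fun _ => Classical.arbitrary κ) (fun _ _ _ => rfl)
  rw [← h2, ← hS]
  exact card_le_univ S

/-- colourings without homogeneous sets on at most `p ^ m` points -/
lemma lt_SymRam [Fintype κ] [Nonempty κ] (hr : 1 ≤ r) {M : ℕ}
    (h : ∀ (P X : Type) [Group P] [Finite P] [Fintype X] [DecidableEq X] [MulAction P X],
      IsPGroup p P → Fintype.card X ≤ M → ∃ c : Finset X → κ, Inv P r c ∧ NoHom univ r n c) :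
    M < SymRam p κ r n := by
  by_contra hcon
  obtain ⟨P, X, i1, i2, i3, i4, i5, h1, h2, h3⟩ := SymRam_spec (p := p) (κ := κ) (n := n) hr
  obtain ⟨c, hc, hn⟩ := h P X h1 (by rw [h2]; exact not_lt.1 hcon)
  obtain ⟨S, hS, b, hb⟩ := h3 c hc
  obtain ⟨e, he, h4, h5⟩ := hn S (subset_univ _) hS b
  exact h5 (hb e he h4)

lemma noHom_of_lt [Fintype κ] {m : ℕ} (h : m < Ram (κ := κ) AllCol r n) :
    ∃ χ : Finset ℕ → κ, NoHom (range m) r n χ := by
  obtain ⟨χ, hχ⟩ := not_arrow_all (not_arrow_of_lt h)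
  exact ⟨χ, hχ⟩

end basic

section ineq

variable {p : ℕ} [hp : Fact p.Prime] {κ : Type} [Fintype κ]

theorem sym_lower [Nontrivial κ] {r n : ℕ} (hr : 3 ≤ r) (hp2 : p ≠ 2 ∨ 4 ≤ r) (hn : 1 ≤ n) :
    p ^ (Ram (κ := κ) AllCol r n - 1) < SymRam p κ (r + 1) (2 * p * (n + r)) := by
  obtain ⟨β, ρ, hβρ⟩ := exists_pair_ne κ
  have h1 : n ≤ Ram (κ := κ) AllCol r n := le_Ram (by omega) inh_all
  obtain ⟨χ, hχ⟩ := noHom_of_lt (κ := κ) (r := r) (n := n) (m := Ram (κ := κ) AllCol r n - 1)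
    (by omega)
  refine lt_SymRam (by omega) (fun P X _ _ _ _ _ hP hX => ?_)
  exact act_all hP hX hr hp2 hβρ hχ

theorem sym_upper [Nonempty κ] {r n : ℕ} (hr : 1 ≤ r) :
    SymRam p κ (r + 1) (n + 1) ≤ p ^ Ram (κ := κ) AllCol r n := by
  obtain ⟨m, hm⟩ : ∃ m, m = Ram (κ := κ) AllCol r n := ⟨_, rfl⟩
  have hA : Arrow (κ := κ) AllCol r n m := by rw [hm]; exact Ram_spec hr
  rw [← hm]
  apply Nat.sInf_le
  have : NeZero p := ⟨hp.out.ne_zero⟩
  refine ⟨Wr p m, Fin m → ZMod p, inferInstance, inferInstance, inferInstance, inferInstance,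
    inferInstance, Wr_pgroup, ?_, fun c hc => ?_⟩
  · rw [Fintype.card_fun, ZMod.card, Fintype.card_fin]
  · exact comb_arrow hA c hc

theorem sym_two_lower [Nonempty κ] {n : ℕ} (hp2 : p ≠ 2) (hn : 1 ≤ n) :
    p ^ (Ram (κ := κ) AllCol 2 n - 1) < SymRam p (κ × Bool) 3 (p * (n + 2)) := by
  have h1 : n ≤ Ram (κ := κ) AllCol 2 n := le_Ram (by omega) inh_all
  obtain ⟨χ, hχ⟩ := noHom_of_lt (κ := κ) (r := 2) (n := n) (m := Ram (κ := κ) AllCol 2 n - 1)
    (by omega)
  refine lt_SymRam (by omega) (fun P X _ _ _ _ _ hP hX => ?_)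
  exact act_two hP hX hp2 hχ

theorem sym_quad_lower [Nonempty κ] {n : ℕ} (hn : 1 ≤ n) :
    p ^ (Ram (κ := κ) AllCol 3 n - 1) < SymRam p (Option κ) 4 (p * (n + 3)) := by
  have h1 : n ≤ Ram (κ := κ) AllCol 3 n := le_Ram (by omega) inh_all
  obtain ⟨χ, hχ⟩ := noHom_of_lt (κ := κ) (r := 3) (n := n) (m := Ram (κ := κ) AllCol 3 n - 1)
    (by omega)
  refine lt_SymRam (by omega) (fun P X _ _ _ _ _ hP hX => ?_)
  exact act_quad hP hX hχ

theorem sym_triple_lower [Nonempty κ] {t : ℕ} (ht : 1 ≤ t) :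
    2 ^ (Ram (κ := κ) AllCol 2 t - 1) < SymRam 2 κ 3 (2 ^ t) := by
  have : Fact (Nat.Prime 2) := ⟨Nat.prime_two⟩
  have h1 : t ≤ Ram (κ := κ) AllCol 2 t := le_Ram (by omega) inh_all
  obtain ⟨χ, hχ⟩ := noHom_of_lt (κ := κ) (r := 2) (n := t) (m := Ram (κ := κ) AllCol 2 t - 1)
    (by omega)
  refine lt_SymRam (by omega) (fun P X _ _ _ _ _ hP hX => ?_)
  exact act_triple hP hX rfl hχ ht

theorem sym_triple_upper [Nonempty κ] {t : ℕ} :
    SymRam 2 κ 3 (2 ^ t) ≤ 2 ^ Ram (κ := κ) AllCol 2 t := by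
  have : Fact (Nat.Prime 2) := ⟨Nat.prime_two⟩
  obtain ⟨m, hm⟩ : ∃ m, m = Ram (κ := κ) AllCol 2 t := ⟨_, rfl⟩
  have hA : Arrow (κ := κ) AllCol 2 t m := by rw [hm]; exact Ram_spec (by norm_num)
  rw [← hm]
  apply Nat.sInf_le
  refine ⟨Wr 2 m, Fin m → ZMod 2, inferInstance, inferInstance, inferInstance, inferInstance,
    inferInstance, Wr_pgroup, ?_, fun c hc => ?_⟩
  · rw [Fintype.card_fun, ZMod.card, Fintype.card_fin]
  · exact triple_arrow hA c hc

/-- for 2-groups and triples the Ramsey numbers are only exponentials of polynomials, for any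
number of colours -/
theorem sym_triple_poly [Nonempty κ] {n : ℕ} (hn : 1 ≤ n) :
    SymRam 2 κ 3 n ≤ 2 ^ ((2 * n) ^ (2 * Fintype.card κ ^ 2)) := by
  obtain ⟨t, ht1, ht2⟩ : ∃ t, n ≤ 2 ^ t ∧ 2 ^ t ≤ 2 * n := by
    refine ⟨Nat.clog 2 n, Nat.le_pow_clog (by norm_num) n, ?_⟩
    rcases Nat.lt_or_ge 1 n with h | h
    · have h1 := Nat.pow_pred_clog_lt_self (b := 2) (by norm_num) h
      have h2 := Nat.clog_pos (b := 2) (by norm_num) h
      have h3 : 2 ^ Nat.clog 2 n = 2 ^ (Nat.clog 2 n).pred * 2 := by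
        rw [← pow_succ]
        congr 1
        exact (Nat.succ_pred_eq_of_pos h2).symm
      omega
    · have : n = 1 := by omega
      subst this
      simp
  refine (SymRam_mono (by norm_num) ht1).trans (sym_triple_upper.trans ?_)
  apply Nat.pow_le_pow_right (by norm_num)
  have h1 : Ram (κ := κ) AllCol 2 t ≤ Pool.Agent.TH360.SR.RB (Fintype.card κ) t 1 :=
    Ram_le (arrow_of_arr (Pool.Agent.TH360.SR.arr_RB κ t 1))
  have h2 : Pool.Agent.TH360.SR.RB (Fintype.card κ) t 1 = (2 * Fintype.card κ) ^ (Fintype.card κ * t) := by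
    simp [Pool.Agent.TH360.SR.RB]
  rw [h2] at h1
  refine h1.trans ?_
  have h3 : 2 * Fintype.card κ ≤ 2 ^ (2 * Fintype.card κ) := Nat.lt_two_pow_self.le
  refine (Nat.pow_le_pow_left h3 _).trans ?_
  have h4 : (2 ^ (2 * Fintype.card κ)) ^ (Fintype.card κ * t) = (2 ^ t) ^ (2 * Fintype.card κ ^ 2) := by
    rw [← pow_mul, ← pow_mul]
    congr 1
    ring
  rw [h4]
  exact Nat.pow_le_pow_left ht2 _

end ineq

/-! ## Growth -/

section growth

variable {p : ℕ} [hp : Fact p.Prime]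

lemma lo_sym {κ : Type} [Fintype κ] [Nontrivial κ] {e r k : ℕ} (he : 1 ≤ e) (hr : 3 ≤ r)
    (hp2 : p ≠ 2 ∨ 4 ≤ r) (hk : 1 ≤ k) (h : Lo e k (Ram (κ := κ) AllCol r)) :
    Lo e (k + 1) (SymRam p κ (r + 1)) := by
  refine lo_step (a := 2 * p) (b := 2 * p * r) he hk (by have := hp.out.one_lt; omega)
    (SymRam_mono (by omega)) ?_ h
  intro n hn
  have h1 := sym_lower (p := p) (κ := κ) hr hp2 hn
  rw [show 2 * p * n + 2 * p * r = 2 * p * (n + r) by ring]
  exact (Nat.pow_le_pow_left hp.out.two_le _).trans h1.le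

lemma lo_all_gen {κ : Type} [Fintype κ] [Nontrivial κ] {e r k : ℕ} (he : 1 ≤ e) (hr : 3 ≤ r)
    (hk : 1 ≤ k) (h : Lo e k (Ram (κ := κ) AllCol r)) :
    Lo e (k + 1) (Ram (κ := κ) AllCol (r + 1)) := by
  obtain ⟨κ₀, κ₁, hκ⟩ := exists_pair_ne κ
  have h1 : Lo e (k + 1) (Ram (κ := κ) ScaleCol (r + 1)) := by
    refine lo_step (a := 2) (b := r - 1) he hk (by norm_num)
      (fun n m hnm => Ram_mono (by omega) hnm) ?_ h
    intro n hn
    have := scale_ineq_lower (κ := κ) hκ hr hn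
    rw [show 2 * n + r - 1 = 2 * n + (r - 1) by omega] at this
    exact this.le
  exact h1.mono fun n => Ram_sub (by omega) (fun _ _ _ _ => trivial)

lemma lo_four {r : ℕ} (hr : 3 ≤ r) : Lo 1 (r - 1) (Ram (κ := Bool × Bool) AllCol r) := by
  induction r, hr using Nat.le_induction with
  | base =>
    have h : Lo 1 2 (Ram (κ := Bool × Bool) ScaleCol 3) := by
      refine lo_step (k := 1) (a := 1) (b := 1) le_rfl le_rfl le_rfl
        (fun n m hnm => Ram_mono (by omega) hnm) ?_ lo_two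
      intro n hn
      rw [one_mul]
      exact (pair_scale_ineq hn).le
    exact h.mono fun n => Ram_sub (by omega) (fun _ _ _ _ => trivial)
  | succ r hr ih =>
    have := lo_all_gen le_rfl hr (by omega) ih
    rwa [show r - 1 + 1 = r + 1 - 1 by omega] at this

theorem growth_sym {s : ℕ} (hs : 2 ≤ s) :
    Growth (SymRam p Bool s) (s - 1) ↔ Lo 1 (s - 1) (SymRam p Bool s) := by
  rw [growth_iff (fun n => le_SymRam (by omega))]
  exact ⟨fun h => h.1, fun h => ⟨h, (up_all hs).mono fun n => SymRam_le_Ram (by omega)⟩⟩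

/-- the question of Erdős for the colourings invariant under `p`-groups -/
theorem sym_iff {s : ℕ} (hs : 4 ≤ s) (hp2 : p ≠ 2 ∨ 5 ≤ s) :
    Q1 ↔ Growth (SymRam p Bool s) (s - 1) := by
  rw [Q1_iff_three, growth_sym (by omega)]
  obtain ⟨r, rfl⟩ : ∃ r, s = r + 1 := ⟨s - 1, by omega⟩
  constructor
  · intro h
    have := lo_sym (p := p) (κ := Bool) le_rfl (show 3 ≤ r by omega)
      (by rcases hp2 with h | h
          · exact Or.inl h
          · exact Or.inr (by omega)) (by omega) ((all_iff (r := r) (by omega)).2 h)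
    rwa [show r - 1 + 1 = r + 1 - 1 by omega] at this
  · intro h
    exact (all_iff (by omega)).1 (h.mono fun n => SymRam_le_Ram (by omega))

theorem sym_lower_growth {s : ℕ} (hs : 4 ≤ s) (hp2 : p ≠ 2 ∨ 5 ≤ s) :
    LowerGrowth (SymRam p Bool s) (s - 2) 2 := by
  obtain ⟨r, rfl⟩ : ∃ r, s = r + 1 := ⟨s - 1, by omega⟩
  have h := lo_sym (p := p) (κ := Bool) (e := 2) (by norm_num) (show 3 ≤ r by omega)
    (by rcases hp2 with h | h
        · exact Or.inl h
        · exact Or.inr (by omega)) (by omega) (lo_all_two (r := r) (by omega))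
  rw [show r - 2 + 1 = r + 1 - 2 by omega] at h
  exact h.lower fun n => le_SymRam (by omega)

theorem sym_four_growth {s : ℕ} (hs : 4 ≤ s) (hp2 : p ≠ 2 ∨ 5 ≤ s) :
    LowerGrowth (SymRam p (Bool × Bool) s) (s - 1) 1 := by
  obtain ⟨r, rfl⟩ : ∃ r, s = r + 1 := ⟨s - 1, by omega⟩
  have h := lo_sym (p := p) (κ := Bool × Bool) (e := 1) (by norm_num) (show 3 ≤ r by omega)
    (by rcases hp2 with h | h
        · exact Or.inl h
        · exact Or.inr (by omega)) (by omega) (lo_four (r := r) (by omega))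
  rw [show r - 1 + 1 = r + 1 - 1 by omega] at h
  exact h.lower fun n => le_SymRam (by omega)

theorem sym_four_growth_three (hp2 : p ≠ 2) : LowerGrowth (SymRam p (Bool × Bool) 3) 2 1 := by
  have h : Lo 1 2 (SymRam p (Bool × Bool) 3) := by
    refine lo_step (k := 1) (a := p) (b := 2 * p) le_rfl le_rfl hp.out.one_lt.le
      (SymRam_mono (by omega)) ?_ lo_two
    intro n hn
    have h1 := sym_two_lower (p := p) (κ := Bool) hp2 hn
    rw [show p * n + 2 * p = p * (n + 2) by ring]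
    exact (Nat.pow_le_pow_left hp.out.two_le _).trans h1.le
  exact h.lower fun n => le_SymRam (by omega)

end growth

end Pool.Agent.N481.SY
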