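import Pool.Agent.N481.SY.Inv

/-!
# Invariant trees for the actions of `p`-groups
-/

set_option autoImplicit false
set_option linter.unusedSectionVars false

open Finset

namespace Pool.Agent.N481.SY

universe u v

/-- A `p`-group acting on a finite set whose cardinality is a multiple of `p` preserves a
partition into blocks of size `p`. -/
theorem blocks (p : ℕ) [hp : Fact p.Prime] (P : Type v) [Group P] [Finite P] (hP : IsPGroup p P) :
    ∀ (N : ℕ) (X : Type u) [Finite X] [MulAction P X], Nat.card X = N → p ∣ N →
    ∃ R : Setoid X, (∀ (g : P) (x y : X), R x y → R (g • x) (g • y)) ∧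
      ∀ x, Nat.card {y // R x y} = p := by
  intro N
  induction N using Nat.strong_induction_on with
  | _ N ih =>
    intro X _ _ hN hpN
    classical
    by_cases htriv : ∀ (g : P) (x : X), g • x = x
    · -- trivial action
      obtain ⟨k, hk⟩ := hpN
      have hcard : Nat.card X = Nat.card (Fin k × Fin p) := by
        rw [hN, hk, Nat.card_prod, Nat.card_eq_fintype_card, Nat.card_eq_fintype_card,
          Fintype.card_fin, Fintype.card_fin, mul_comm]
      obtain ⟨e⟩ := Finite.card_eq.1 hcard
      refine ⟨Setoid.ker (fun x => (e x).1), ?_, ?_⟩
      · intro g x y h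
        rwa [htriv, htriv]
      · intro x
        have e2 : {y // (Setoid.ker (fun x => (e x).1)) x y} ≃ Fin p :=
          { toFun := fun y => (e y.1).2
            invFun := fun j => ⟨e.symm ((e x).1, j), by
              show (e x).1 = (e (e.symm ((e x).1, j))).1
              rw [Equiv.apply_symm_apply]⟩
            left_inv := by
              rintro ⟨y, hy⟩
              apply Subtype.ext
              show e.symm ((e x).1, (e y).2) = y
              have h1 : (e x).1 = (e y).1 := hy
              rw [h1]
              exact e.symm_apply_apply y
            right_inv := by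
              intro j
              show (e (e.symm ((e x).1, j))).2 = j
              rw [Equiv.apply_symm_apply] }
        rw [Nat.card_congr e2, Nat.card_eq_fintype_card, Fintype.card_fin]
    · push Not at htriv
      obtain ⟨g0, x0, hg0⟩ := htriv
      obtain ⟨φ, hφ⟩ : ∃ φ : P →* Equiv.Perm X, φ = MulAction.toPermHom P X := ⟨_, rfl⟩
      have hφa : ∀ (g : P) (x : X), φ g x = g • x := by
        intro g x; rw [hφ]; rfl
      have hQ : IsPGroup p φ.range := hP.of_surjective φ.rangeRestrict φ.rangeRestrict_surjective
      have hnt : Nontrivial φ.range := ⟨⟨φ.rangeRestrict g0, 1, fun e => hg0 (by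
          have h1 := congrArg (fun q : φ.range => (q : Equiv.Perm X) x0) e
          have h2 : φ g0 x0 = x0 := h1
          rwa [hφa] at h2)⟩⟩
      have hcn := hQ.center_nontrivial
      have hC : IsPGroup p (Subgroup.center φ.range) := hQ.to_subgroup _
      obtain ⟨n, hn⟩ := IsPGroup.iff_card.1 hC
      have hn0 : n ≠ 0 := by
        rintro rfl
        rw [pow_zero] at hn
        have := Finite.one_lt_card (α := Subgroup.center φ.range)
        omega
      obtain ⟨z, hz⟩ := exists_prime_orderOf_dvd_card' (G := Subgroup.center φ.range) p
        (by rw [hn]; exact dvd_pow_self p hn0)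
      obtain ⟨σ, hσ⟩ : ∃ σ : Equiv.Perm X, σ = ((z : φ.range) : Equiv.Perm X) := ⟨_, rfl⟩
      have hσp : σ ^ p = 1 := by
        have h1 := pow_orderOf_eq_one z
        rw [hz] at h1
        have h2 := congrArg (fun w : Subgroup.center φ.range => ((w : φ.range) : Equiv.Perm X)) h1
        rw [hσ]
        simpa using h2
      have hσ1 : σ ≠ 1 := by
        intro e
        have h1 : z = 1 := by
          apply Subtype.ext
          apply Subtype.ext
          rw [← hσ]
          exact e
        rw [h1, orderOf_one] at hz
        exact hp.out.one_lt.ne hz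
      have hcomm : ∀ (g : P) (x : X), σ (g • x) = g • σ x := by
        intro g x
        have h1 := (Subgroup.mem_center_iff.1 z.2) (φ.rangeRestrict g)
        have h2 := congrArg (fun w : φ.range => (w : Equiv.Perm X) x) h1
        have h3 : φ g (σ x) = σ (φ g x) := by rw [hσ]; exact h2
        rw [hφa, hφa] at h3
        exact h3.symm
      -- the fixed points
      let Y : SubMulAction P X :=
        { carrier := {x | σ x = x}
          smul_mem' := by
            intro g x hx
            show σ (g • x) = g • x
            rw [hcomm]
            exact congrArg _ hx }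
      have hYmem : ∀ x, x ∈ Y ↔ σ x = x := fun x => Iff.rfl
      have hYfin : Finite Y := Subtype.finite
      have hYlt : Nat.card Y < N := by
        rw [← hN]
        obtain ⟨x1, hx1⟩ : ∃ x1, σ x1 ≠ x1 := by
          by_contra hcon
          push Not at hcon
          exact hσ1 (Equiv.ext hcon)
        have := Fintype.ofFinite X
        have := Fintype.ofFinite Y
        rw [Nat.card_eq_fintype_card, Nat.card_eq_fintype_card]
        exact Fintype.card_lt_of_injective_of_notMem (fun y : Y => (y : X)) Subtype.val_injective
          (b := x1) (by
            rintro ⟨y, hy⟩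
            exact hx1 ((hYmem x1).1 (hy ▸ y.2)))
      have hYp : p ∣ Nat.card Y := by
        have := Fintype.ofFinite X
        let f : Function.End X := (σ : X → X)
        have h2 : ∀ k : ℕ, f ^ k = ((σ ^ k : Equiv.Perm X) : X → X) := by
          intro k
          induction k with
          | zero => rfl
          | succ k ihk => rw [pow_succ, pow_succ, ihk]; rfl
        have h1 := Equiv.Perm.card_fixedPoints_modEq (α := X) (f := f) (p := p) (n := 1) (by
          rw [pow_one, h2, hσp]
          rfl)
        have h3 : Fintype.card (Function.fixedPoints (σ : X → X)) = Nat.card Y := by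
          rw [← Nat.card_eq_fintype_card]
          exact Nat.card_congr (Equiv.subtypeEquivRight (fun x => Iff.rfl))
        have h4 : Fintype.card X = N := by rw [← Nat.card_eq_fintype_card, hN]
        rw [← h3]
        have h5 : p ∣ Fintype.card X := by rw [h4]; exact hpN
        exact (Nat.modEq_zero_iff_dvd.1 ((h1.symm).trans (Nat.modEq_zero_iff_dvd.2 h5)))
      obtain ⟨RY, hRY1, hRY2⟩ := ih (Nat.card Y) hYlt Y rfl hYp
      -- the union of the two partitions
      let rel : X → X → Prop := fun x y =>
        (∃ (hx : x ∈ Y) (hy : y ∈ Y), RY ⟨x, hx⟩ ⟨y, hy⟩) ∨ (x ∉ Y ∧ σ.SameCycle x y)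
      have hsame : ∀ x y, σ.SameCycle x y → (x ∈ Y ↔ y ∈ Y) := fun x y hxy => by
        rw [hYmem, hYmem]; exact hxy.apply_eq_self_iff
      have hrel : Equivalence rel := by
        refine ⟨?_, ?_, ?_⟩
        · intro x
          by_cases hx : x ∈ Y
          · exact Or.inl ⟨hx, hx, RY.refl _⟩
          · exact Or.inr ⟨hx, Equiv.Perm.SameCycle.refl _ _⟩
        · rintro x y (⟨hx, hy, h1⟩ | ⟨hx, h1⟩)
          · exact Or.inl ⟨hy, hx, RY.symm h1⟩
          · exact Or.inr ⟨fun hy => hx ((hsame x y h1).2 hy), h1.symm⟩
        · rintro x y w (⟨hx, hy, h1⟩ | ⟨hx, h1⟩) (⟨hy', hw, h2⟩ | ⟨hy', h2⟩)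
          · exact Or.inl ⟨hx, hw, RY.trans h1 h2⟩
          · exact absurd hy hy'
          · exact absurd ((hsame x y h1).2 hy') hx
          · exact Or.inr ⟨hx, h1.trans h2⟩
      refine ⟨⟨rel, hrel⟩, ?_, ?_⟩
      · rintro g x y (⟨hx, hy, h1⟩ | ⟨hx, i, h1⟩)
        · exact Or.inl ⟨Y.smul_mem g hx, Y.smul_mem g hy, hRY1 g _ _ h1⟩
        · refine Or.inr ⟨fun hgx => hx ?_, i, ?_⟩
          · have h2 := Y.smul_mem g⁻¹ hgx
            rwa [inv_smul_smul] at h2
          · -- powers of `σ` commute with the action
            have hnat : ∀ (k : ℕ) (x : X), (σ ^ k) (g • x) = g • (σ ^ k) x := by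
              intro k
              induction k with
              | zero => intro x; rfl
              | succ k ihk =>
                intro x
                rw [pow_succ, Equiv.Perm.mul_apply, Equiv.Perm.mul_apply, hcomm, ihk]
            have hint : ∀ (k : ℤ) (x : X), (σ ^ k) (g • x) = g • (σ ^ k) x := by
              intro k x
              cases k with
              | ofNat k => exact hnat k x
              | negSucc k =>
                rw [zpow_negSucc, Equiv.Perm.inv_eq_iff_eq, hnat]
                simp
            rw [hint, h1]
      · intro x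
        by_cases hx : x ∈ Y
        · have e2 : {y // rel x y} ≃ {y : Y // RY ⟨x, hx⟩ y} :=
            { toFun := fun y => ⟨⟨y.1, by
                  rcases y.2 with ⟨_, hy, _⟩ | ⟨hx', _⟩
                  · exact hy
                  · exact absurd hx hx'⟩, by
                  rcases y.2 with ⟨_, hy, h1⟩ | ⟨hx', _⟩
                  · exact h1
                  · exact absurd hx hx'⟩
              invFun := fun y => ⟨y.1.1, Or.inl ⟨hx, y.1.2, y.2⟩⟩
              left_inv := fun y => rfl
              right_inv := fun y => rfl }
          exact (Nat.card_congr e2).trans (hRY2 ⟨x, hx⟩)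
        · have hper : Function.minimalPeriod (fun y => σ • y) x = p := by
            have h1 : Function.IsPeriodicPt (fun y => σ • y) p x := by
              show (fun y => σ • y)^[p] x = x
              have h2 : ∀ k : ℕ, (fun y => σ • y)^[k] x = (σ ^ k) x := by
                intro k
                induction k with
                | zero => rfl
                | succ k ihk => rw [Function.iterate_succ_apply', ihk, pow_succ']; rfl
              rw [h2, hσp]
              rfl
            rcases (Nat.dvd_prime hp.out).1 h1.minimalPeriod_dvd with h2 | h2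
            · exact absurd (Function.minimalPeriod_eq_one_iff_isFixedPt.1 h2) hx
            · exact h2
          let _ : Fintype (MulAction.orbit (Subgroup.zpowers σ) x) := Fintype.ofFinite _
          have h3 := MulAction.minimalPeriod_eq_card σ x
          rw [hper] at h3
          rw [h3, ← Nat.card_eq_fintype_card]
          refine Nat.card_congr (Equiv.subtypeEquivRight (fun y => ?_))
          constructor
          · rintro (⟨hx', _⟩ | ⟨_, i, hi⟩)
            · exact absurd hx' hx
            · exact ⟨⟨σ ^ i, i, rfl⟩, hi⟩
          · rintro ⟨⟨τ, i, hi⟩, hτ⟩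
            refine Or.inr ⟨hx, i, ?_⟩
            have h4 : σ ^ i = τ := hi
            rw [h4]
            exact hτ

end Pool.Agent.N481.SY
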