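import Pool.Agent.N481.SY.Sign

/-!
# The colourings depend only on the isometry type
-/

set_option autoImplicit false
set_option linter.unusedSectionVars false

open Finset

namespace Pool.Agent.N481.SY

variable {V W κ : Type*} [DecidableEq V] [DecidableEq W] {h : V → V → ℕ} {h' : W → W → ℕ}
  {s : V → V → Bool} {s' : W → W → Bool}

lemma top_image {g : V → W} (hg : Function.Injective g) (hh : ∀ x y, x ≠ y → h' (g x) (g y) = h x y)
    {F : Finset V} {a : V} : Top h' (F.image g) (g a) ↔ Top h F a := by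
  unfold Top
  rw [mem_image]
  constructor
  · rintro ⟨⟨a', ha', e⟩, k, h1, h2⟩
    have e' := hg e
    subst e'
    refine ⟨ha', k, fun x hx hxa => ?_, fun x hx y hy hxa hya hxy => ?_⟩
    · rw [← hh _ _ (Ne.symm hxa)]
      exact h1 (g x) (mem_image_of_mem _ hx) (fun e => hxa (hg e))
    · rw [← hh _ _ hxy]
      exact h2 (g x) (mem_image_of_mem _ hx) (g y) (mem_image_of_mem _ hy) (fun e => hxa (hg e))
        (fun e => hya (hg e)) (fun e => hxy (hg e))
  · rintro ⟨ha, k, h1, h2⟩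
    refine ⟨⟨a, ha, rfl⟩, k, fun x hx hxa => ?_, fun x hx y hy hxa hya hxy => ?_⟩
    · obtain ⟨u, hu, rfl⟩ := mem_image.1 hx
      rw [hh _ _ (fun e => hxa (by rw [e]))]
      exact h1 u hu (fun e => hxa (by rw [e]))
    · obtain ⟨u, hu, rfl⟩ := mem_image.1 hx
      obtain ⟨v, hv, rfl⟩ := mem_image.1 hy
      rw [hh _ _ (fun e => hxy (by rw [e]))]
      exact h2 u hu v hv (fun e => hxa (by rw [e])) (fun e => hya (by rw [e]))
        (fun e => hxy (by rw [e]))

lemma hts_image {g : V → W} (hg : Function.Injective g) (hh : ∀ x y, x ≠ y → h' (g x) (g y) = h x y)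
    (F : Finset V) : hts h' (F.image g) = hts h F := by
  ext k
  unfold hts
  simp only [mem_image, mem_offDiag, Prod.exists]
  constructor
  · rintro ⟨x, y, ⟨⟨u, hu, rfl⟩, ⟨v, hv, rfl⟩, hxy⟩, rfl⟩
    have huv : u ≠ v := fun e => hxy (by rw [e])
    exact ⟨u, v, ⟨hu, hv, huv⟩, (hh _ _ huv).symm⟩
  · rintro ⟨u, v, ⟨hu, hv, huv⟩, rfl⟩
    exact ⟨g u, g v, ⟨⟨u, hu, rfl⟩, ⟨v, hv, rfl⟩, fun e => huv (hg e)⟩, hh _ _ huv⟩

lemma exists_top_image {g : V → W} (hg : Function.Injective g)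
    (hh : ∀ x y, x ≠ y → h' (g x) (g y) = h x y) {F : Finset V} :
    (∃ a, Top h' (F.image g) a) ↔ ∃ a, Top h F a := by
  constructor
  · rintro ⟨a, ha⟩
    obtain ⟨u, hu, rfl⟩ := mem_image.1 ha.1
    exact ⟨u, (top_image hg hh).1 ha⟩
  · rintro ⟨a, ha⟩
    exact ⟨g a, (top_image hg hh).2 ha⟩

/-- the colouring `col` depends only on the isometry type -/
theorem col_image {g : V → W} (hg : Function.Injective g)
    (hh : ∀ x y, x ≠ y → h' (g x) (g y) = h x y) (χ : Finset ℕ → κ) (β ρ : κ) (F : Finset V) :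
    col h' χ β ρ (F.image g) = col h χ β ρ F := by
  have e1 : (∃ a, Top h' (F.image g) a ∧ ∃ b, Top h' ((F.image g).erase a) b) ↔
      ∃ a, Top h F a ∧ ∃ b, Top h (F.erase a) b := by
    constructor
    · rintro ⟨a, ha, hb⟩
      obtain ⟨u, hu, rfl⟩ := mem_image.1 ha.1
      rw [← image_erase hg, exists_top_image hg hh] at hb
      exact ⟨u, (top_image hg hh).1 ha, hb⟩
    · rintro ⟨a, ha, hb⟩
      refine ⟨g a, (top_image hg hh).2 ha, ?_⟩
      rw [← image_erase hg, exists_top_image hg hh]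
      exact hb
  have e2 := exists_top_image (F := F) hg hh
  have e3 := hts_image hg hh F
  unfold col
  rw [e3]
  by_cases c1 : ∃ a, Top h F a ∧ ∃ b, Top h (F.erase a) b
  · rw [if_pos c1, if_pos (e1.2 c1)]
  · rw [if_neg c1, if_neg (fun e => c1 (e1.1 e))]
    by_cases c2 : ∃ a, Top h F a
    · rw [if_pos c2, if_pos (e2.2 c2)]
    · rw [if_neg c2, if_neg (fun e => c2 (e2.1 e))]

/-- the change of the signs under `g` is constant, except at the pairs of maximal level -/
def Flip (h : V → V → ℕ) (s : V → V → Bool) (s' : W → W → Bool) (g : V → W) (φ : Bool) : Prop :=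
  ∀ a x y, a ≠ x → x ≠ y → h a x < h x y → s' (g a) (g x) = xor (s a x) φ

lemma topS_image {g : V → W} (hg : Function.Injective g)
    (hh : ∀ x y, x ≠ y → h' (g x) (g y) = h x y) {φ : Bool}
    (hs : Flip h s s' g φ) {F : Finset V} (hF : 3 ≤ F.card) {a : V} {ε : Bool} :
    TopS h' s' (F.image g) (g a) (xor ε φ) ↔ TopS h s F a ε := by
  unfold TopS
  rw [top_image hg hh]
  refine and_congr_right (fun hta => ?_)
  obtain ⟨-, k, t1, t2⟩ := hta
  have key : ∀ x ∈ F, x ≠ a → s' (g a) (g x) = xor (s a x) φ := by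
    intro x hx hxa
    obtain ⟨y, hy, hya, hyx⟩ : ∃ y ∈ F, y ≠ a ∧ y ≠ x := by
      have h1 : ({a, x} : Finset V).card < F.card := lt_of_le_of_lt card_le_two (by omega)
      obtain ⟨x', hx', hx''⟩ := Finset.exists_mem_notMem_of_card_lt_card h1
      simp only [mem_insert, mem_singleton, not_or] at hx''
      exact ⟨x', hx', hx''⟩
    exact hs a x y (Ne.symm hxa) (Ne.symm hyx) (by rw [t1 x hx hxa]; exact t2 x hx y hy hxa hya (Ne.symm hyx))
  constructor
  · intro h1 x hx hxa
    have h2 := h1 (g x) (mem_image_of_mem _ hx) (fun e => hxa (hg e))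
    rw [key x hx hxa] at h2
    cases φ <;> simpa using h2
  · intro h1 x hx hxa
    obtain ⟨u, hu, rfl⟩ := mem_image.1 hx
    have hua : u ≠ a := fun e => hxa (by rw [e])
    rw [key u hu hua, h1 u hu hua]

lemma exists_topS_image {g : V → W} (hg : Function.Injective g)
    (hh : ∀ x y, x ≠ y → h' (g x) (g y) = h x y) {φ : Bool}
    (hs : Flip h s s' g φ) {F : Finset V} (hF : 3 ≤ F.card) {ε : Bool} :
    (∃ a, TopS h' s' (F.image g) a (xor ε φ)) ↔ ∃ a, TopS h s F a ε := by
  constructor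
  · rintro ⟨a, ha⟩
    obtain ⟨u, hu, rfl⟩ := mem_image.1 ha.1.1
    exact ⟨u, (topS_image hg hh hs hF).1 ha⟩
  · rintro ⟨a, ha⟩
    exact ⟨g a, (topS_image hg hh hs hF).2 ha⟩

/-- the colouring `colS` depends only on the isometry type with the signs, up to a global change
of the signs -/
theorem colS_image {g : V → W} (hg : Function.Injective g)
    (hh : ∀ x y, x ≠ y → h' (g x) (g y) = h x y) {φ : Bool}
    (hs : Flip h s s' g φ) (χ : Finset ℕ → κ) (β ρ : κ)
    (F : Finset V) (hF : 4 ≤ F.card) : colS h' s' χ β ρ (F.image g) = colS h s χ β ρ F := by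
  have e1 : (∃ a ε, TopS h' s' (F.image g) a ε ∧ ∃ b, TopS h' s' ((F.image g).erase a) b ε) ↔
      ∃ a ε, TopS h s F a ε ∧ ∃ b, TopS h s (F.erase a) b ε := by
    constructor
    · rintro ⟨a, ε, ha, hb⟩
      obtain ⟨u, hu, rfl⟩ := mem_image.1 ha.1.1
      obtain ⟨ε', rfl⟩ : ∃ ε', ε = xor ε' φ := ⟨xor ε φ, by simp⟩
      rw [← image_erase hg, exists_topS_image hg hh hs (by rw [card_erase_of_mem hu]; omega)] at hb
      exact ⟨u, ε', (topS_image hg hh hs (by omega)).1 ha, hb⟩
    · rintro ⟨a, ε, ha, hb⟩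
      refine ⟨g a, xor ε φ, (topS_image hg hh hs (by omega)).2 ha, ?_⟩
      rw [← image_erase hg, exists_topS_image hg hh hs (by rw [card_erase_of_mem ha.1.1]; omega)]
      exact hb
  have e2 : (∃ a ε, TopS h' s' (F.image g) a ε) ↔ ∃ a ε, TopS h s F a ε := by
    constructor
    · rintro ⟨a, ε, ha⟩
      obtain ⟨u, hu, rfl⟩ := mem_image.1 ha.1.1
      obtain ⟨ε', rfl⟩ : ∃ ε', ε = xor ε' φ := ⟨xor ε φ, by simp⟩
      exact ⟨u, ε', (topS_image hg hh hs (by omega)).1 ha⟩
    · rintro ⟨a, ε, ha⟩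
      exact ⟨g a, xor ε φ, (topS_image hg hh hs (by omega)).2 ha⟩
  have e3 := hts_image hg hh F
  unfold colS
  rw [e3]
  by_cases c1 : ∃ a ε, TopS h s F a ε ∧ ∃ b, TopS h s (F.erase a) b ε
  · rw [if_pos c1, if_pos (e1.2 c1)]
  · rw [if_neg c1, if_neg (fun e => c1 (e1.1 e))]
    by_cases c2 : ∃ a ε, TopS h s F a ε
    · rw [if_pos c2, if_pos (e2.2 c2)]
    · rw [if_neg c2, if_neg (fun e => c2 (e2.1 e))]

/-- the colouring `colT` depends only on the isometry type with the signs -/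
theorem colT_image {g : V → W} (hg : Function.Injective g)
    (hh : ∀ x y, x ≠ y → h' (g x) (g y) = h x y)
    (hs : Flip h s s' g false) (χ : Finset ℕ → κ) (F : Finset V) (hF : 3 ≤ F.card) :
    colT h' s' χ (F.image g) = colT h s χ F := by
  have e := exists_topS_image (F := F) (ε := true) hg hh hs hF
  unfold colT
  rw [hts_image hg hh F]
  congr 1
  simp only [Bool.xor_false] at e
  exact decide_eq_decide.2 e

end Pool.Agent.N481.SY
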