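import Pool.Agent.N481.SY.Base

/-!
# Stepping up into the colourings with prescribed symmetries
-/

set_option autoImplicit false
set_option linter.unusedSectionVars false

open Finset

namespace Pool.Agent.N481.SY

universe u v w

/-- the colouring `c` of the `r`-subsets of `X` is invariant under the action of `P` -/
def Inv (P : Type v) {X : Type u} [Group P] [MulAction P X] [DecidableEq X] {κ : Type w} (r : ℕ)
    (c : Finset X → κ) : Prop :=
  ∀ (g : P) (F : Finset X), F.card = r → c (F.image (fun x => g • x)) = c F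

section act

variable {p : ℕ} [hp : Fact p.Prime] {P : Type v} [Group P] [Finite P] (hP : IsPGroup p P)
  {X : Type u} [Fintype X] [DecidableEq X] [MulAction P X] {m : ℕ} (hX : Fintype.card X ≤ p ^ m)
  {κ : Type w}

include hP hX

theorem act_ge_four {r n : ℕ} (hr : 4 ≤ r) {β ρ : κ} (hβρ : β ≠ ρ) {χ : Finset ℕ → κ}
    (hχ : NoHom (range m) r n χ) :
    ∃ c : Finset X → κ, Inv P (r + 1) c ∧ NoHom univ (r + 1) (p * (n + r)) c := by
  obtain ⟨h, hu, hi, hm, hK⟩ := exists_lev' p P hP m X hX
  refine ⟨col h χ β ρ, fun g F _ => ?_, ?_⟩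
  · exact col_image (MulAction.injective g) (fun x y _ => hi g x y) χ _ _ F
  · exact col_noHom hu hr univ hK (fun x _ y _ hxy => hm x y hxy) χ hχ _ _ hβρ hp.out.one_lt.le

lemma flip_of {s : X → X → Bool} {h : X → X → ℕ} (g : P)
    (hs : ∀ (g : P) (x y : X), s (g • x) (g • y) = s x y) : Flip h s s (fun x => g • x) false := by
  intro a x y _ _ _
  rw [Bool.xor_false]
  exact hs g a x

theorem act_three {n : ℕ} (hp2 : p ≠ 2) {β ρ : κ} (hβρ : β ≠ ρ) {χ : Finset ℕ → κ}
    (hχ : NoHom (range m) 3 n χ) :
    ∃ c : Finset X → κ, Inv P 4 c ∧ NoHom univ 4 (p * (2 * (n + 3))) c := by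
  obtain ⟨h, hu, hi, hm, hK⟩ := exists_lev' p P hP m X hX
  obtain ⟨s, hs1, hs2⟩ := exists_sign p hp2 P hP X
  refine ⟨colS h s χ β ρ, fun g F hF => ?_, ?_⟩
  · exact colS_image (MulAction.injective g) (fun x y _ => hi g x y) (flip_of hP hX g hs1) χ _ _ F
      (by omega)
  · exact colS_noHom hu (fun x y z hxy _ _ => hs2 x y hxy) univ hK (fun x _ y _ hxy => hm x y hxy)
      χ hχ _ _ hβρ hp.out.one_lt.le

theorem act_two {n : ℕ} (hp2 : p ≠ 2) {χ : Finset ℕ → κ} (hχ : NoHom (range m) 2 n χ) :
    ∃ c : Finset X → κ × Bool, Inv P 3 c ∧ NoHom univ 3 (p * (n + 2)) c := by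
  obtain ⟨h, hu, hi, hm, hK⟩ := exists_lev' p P hP m X hX
  obtain ⟨s, hs1, hs2⟩ := exists_sign p hp2 P hP X
  refine ⟨colT h s χ, fun g F hF => ?_, colT_noHom hu (fun x y z hxy _ _ => hs2 x y hxy) univ hK
    (fun x _ y _ hxy => hm x y hxy) χ hχ hp.out.one_lt.le⟩
  exact colT_image (MulAction.injective g) (fun x y _ => hi g x y) (flip_of hP hX g hs1) χ F
    (by omega)

theorem act_all {r n : ℕ} (hr : 3 ≤ r) (hp2 : p ≠ 2 ∨ 4 ≤ r) {β ρ : κ} (hβρ : β ≠ ρ)
    {χ : Finset ℕ → κ} (hχ : NoHom (range m) r n χ) :
    ∃ c : Finset X → κ, Inv P (r + 1) c ∧ NoHom univ (r + 1) (2 * p * (n + r)) c := by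
  by_cases h3 : r = 3
  · subst h3
    obtain ⟨c, h1, h2⟩ := act_three hP hX (by omega) hβρ hχ
    exact ⟨c, h1, h2.up (by rw [← mul_assoc, mul_comm p 2])⟩
  · obtain ⟨c, h1, h2⟩ := act_ge_four hP hX (by omega) hβρ hχ
    exact ⟨c, h1, h2.up (Nat.mul_le_mul_right _ (by omega))⟩

/-- triples, any prime: the colour is a function of the two levels -/
theorem act_triple {t : ℕ} (hp2 : p = 2) {χ : Finset ℕ → κ} (hχ : NoHom (range m) 2 t χ)
    (ht : 1 ≤ t) : ∃ c : Finset X → κ, Inv P 3 c ∧ NoHom univ 3 (2 ^ t) c := by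
  subst hp2
  obtain ⟨h, hu, hi, hm, hK⟩ := exists_lev' 2 P hP m X hX
  refine ⟨fun F => χ (hts h F), fun g F hF => ?_, ?_⟩
  · show χ _ = χ _
    rw [hts_image (MulAction.injective g) (fun x y _ => hi g x y) F]
  · intro S _ hS b
    by_contra hcon
    push Not at hcon
    -- a long path
    have path : ∀ N : ℕ, ∀ S : Finset X, 2 ^ N + 1 ≤ S.card → ∃ (b : ℕ → X) (z : X) (η : ℕ → ℕ),
        Chn h S N b z η := by
      intro N
      induction N with
      | zero =>
        intro S hS
        obtain ⟨x, hx, y, hy, hxy⟩ := Finset.one_lt_card.1 (show 1 < S.card by omega)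
        refine ⟨fun _ => x, y, fun _ => h x y, fun _ _ => hx, hy, ?_, fun _ _ => hxy, ?_,
          fun _ _ => rfl, ?_⟩ <;>
        · intro i j hij hj
          omega
      | succ N ih =>
        intro S hS
        obtain ⟨A, hA, a, ha, haA, h1, k, h2, h3⟩ := big_class hu hK S (by
          have : 0 < 2 ^ (N + 1) := by positivity
          omega)
        obtain ⟨b', z, η', C⟩ := ih A (by
          rw [pow_succ] at hS
          omega)
        refine ⟨fun i => if i = 0 then a else b' (i - 1), z, fun i => if i = 0 then k else η' (i - 1),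
          ?_, hA C.memz, ?_, ?_, ?_, ?_, ?_⟩
        · intro i hi
          by_cases h0 : i = 0
          · simp only [h0, if_true]; exact ha
          · simp only [if_neg h0]; exact hA (C.mem _ (by omega))
        · intro i j hij hj
          have hj0 : j ≠ 0 := by omega
          simp only [if_neg hj0]
          by_cases h0 : i = 0
          · simp only [h0, if_true]
            intro e
            exact haA (e ▸ C.mem (j - 1) (by omega))
          · simp only [if_neg h0]
            exact C.ne _ _ (by omega) (by omega)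
        · intro i hi
          by_cases h0 : i = 0
          · simp only [h0, if_true]
            intro e
            exact haA (e ▸ C.memz)
          · simp only [if_neg h0]; exact C.nez _ (by omega)
        · intro i j hij hj
          have hj0 : j ≠ 0 := by omega
          simp only [if_neg hj0]
          by_cases h0 : i = 0
          · simp only [h0, if_true]
            exact h2 _ (C.mem _ (by omega))
          · simp only [if_neg h0]
            exact C.ht _ _ (by omega) (by omega)
        · intro i hi
          by_cases h0 : i = 0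
          · simp only [h0, if_true]
            exact h2 _ C.memz
          · simp only [if_neg h0]; exact C.htz _ (by omega)
        · intro i j hij hj
          have hj0 : j ≠ 0 := by omega
          simp only [if_neg hj0]
          by_cases h0 : i = 0
          · simp only [h0, if_true]
            rw [← C.htz (j - 1) (by omega)]
            exact h3 _ (C.mem _ (by omega)) _ C.memz (C.nez _ (by omega))
          · simp only [if_neg h0]
            exact C.mono _ _ (by omega) (by omega)
    obtain ⟨b', z, η, C⟩ := path (t - 1) S (by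
      obtain ⟨t', rfl⟩ : ∃ t', t = t' + 1 := ⟨t - 1, by omega⟩
      rw [hS, pow_succ, Nat.add_sub_cancel]
      have : 0 < 2 ^ t' := by positivity
      omega)
    have h3 := C.short hχ (fun x _ y _ hxy => hm x y hxy) b (range (t - 1 + 1)) (Subset.refl _)
      (fun I hI hIc => by
        rw [← hcon _ (C.sub hI) (by rw [C.card hI, hIc])]
        rw [C.hts hu hI])
    rw [card_range] at h3
    omega

open Classical in
/-- quadruples with one more colour, any prime -/
theorem act_quad {n : ℕ} {χ : Finset ℕ → κ} (hχ : NoHom (range m) 3 n χ) :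
    ∃ c : Finset X → Option κ, Inv P 4 c ∧ NoHom univ 4 (p * (n + 3)) c := by
  obtain ⟨h, hu, hi, hm, hK⟩ := exists_lev' p P hP m X hX
  have hp1 := hp.out.one_lt.le
  refine ⟨fun F => if ∃ a, Top h F a then some (χ (hts h F)) else none, fun g F hF => ?_, ?_⟩
  · have e1 := hts_image (MulAction.injective g) (fun x y _ => hi g x y) F
    have e2 := exists_top_image (F := F) (MulAction.injective g) (fun x y _ => hi g x y)
    show (if _ then _ else _) = (if _ then _ else _)
    rw [e1]
    by_cases c2 : ∃ a, Top h F a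
    · rw [if_pos c2, if_pos (e2.2 c2)]
    · rw [if_neg c2, if_neg (fun e => c2 (e2.1 e))]
  · intro S _ hS b
    by_contra hcon
    push Not at hcon
    have hScard : n + 3 ≤ S.card := by rw [hS]; exact Nat.le_mul_of_pos_left _ hp1
    by_cases hn : n = 0
    · subst hn
      obtain ⟨e, he, hc, -⟩ := hχ ∅ (by simp) (by simp) (χ ∅)
      rw [subset_empty.1 he] at hc
      simp at hc
    cases b with
    | none =>
      obtain ⟨A, hA, a, ha, haA, h1, k, h2, h3⟩ := big_class hu hK S (by omega)
      have hA3 : 3 ≤ A.card := by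
        by_contra hcon
        have h4 : p * A.card ≤ p * 2 := Nat.mul_le_mul_left _ (by omega)
        have h5 : p * (0 + 3) ≤ p * (n + 3) := Nat.mul_le_mul_left _ (by omega)
        omega
      obtain ⟨T, hT, hTc⟩ := Finset.exists_subset_card_eq hA3
      have haT : a ∉ T := fun e => haA (hT e)
      have h4 := hcon (insert a T) (insert_subset ha (hT.trans hA))
        (by rw [card_insert_of_notMem haT, hTc])
      have htop : Top h (insert a T) a := by
        refine ⟨mem_insert_self _ _, k, ?_, ?_⟩
        · intro x hx hxa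
          exact h2 x (hT (mem_of_mem_insert_of_ne hx hxa))
        · intro x hx y hy hxa hya hxy
          exact h3 x (hT (mem_of_mem_insert_of_ne hx hxa)) y (hT (mem_of_mem_insert_of_ne hy hya)) hxy
      rw [if_pos ⟨a, htop⟩] at h4
      simp at h4
    | some b =>
      have htop : ∀ F ⊆ S, F.card = 4 → ∃ a, Top h F a := by
        intro F hF hFc
        by_contra hno
        have h1 := hcon F hF hFc
        rw [if_neg hno] at h1
        simp at h1
      obtain ⟨b', z, η, Y, C, -, -, -⟩ := chain_of (h := h) (fun _ _ => True) (t := 4) (by omega)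
        (S.card - 4) S (fun Z hZ hc => by
          obtain ⟨a, ha⟩ := top_of_all hu le_rfl Z hc (fun F hF => htop F (hF.trans hZ))
          exact ⟨a, ha, trivial⟩) (by omega)
      have h3 := C.short hχ (fun x _ y _ hxy => hm x y hxy) b (range (S.card - 4 + 1)) (Subset.refl _)
        (fun I hI hIc => by
          have h4 := hcon _ (C.sub hI) (by rw [C.card hI, hIc])
          rw [if_pos (htop _ (C.sub hI) (by rw [C.card hI, hIc])), C.hts hu hI] at h4
          exact Option.some_injective _ h4)
      rw [card_range] at h3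
      omega

end act

/-! ## The cyclic 2-groups -/

section cyc

variable {m : ℕ} [NeZero (2 ^ m)] {κ : Type w}

theorem cyc_three {n : ℕ} {β ρ : κ} (hβρ : β ≠ ρ) {χ : Finset ℕ → κ}
    (hχ : NoHom (range m) 3 n χ) :
    ∃ c : Finset (ZMod (2 ^ m)) → κ,
      (∀ a t : ZMod (2 ^ m), IsUnit a → ∀ F : Finset (ZMod (2 ^ m)), F.card = 4 →
        c (F.image (fun x => a * x + t)) = c F) ∧ NoHom univ 4 (4 * (n + 3)) c := by
  have h1 := colS_noHom (vl_ult m) (sg_anti m) (Finset.univ : Finset (ZMod (2 ^ m))) (vl_two m)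
    (fun x _ y _ hxy => vl_lt m hxy) χ hχ β ρ hβρ (by norm_num)
  refine ⟨_, fun a t ha F hF => ?_, h1.up (by omega)⟩
  obtain ⟨φ, hφ⟩ := (sg_affine ha t).1
  exact colS_image (affine_inj ha t) (fun x y _ => vl_affine ha t x y) hφ χ _ _ F (by omega)

theorem cyc_two {n : ℕ} {χ : Finset ℕ → κ} (hχ : NoHom (range m) 2 n χ) :
    ∃ c : Finset (ZMod (2 ^ m)) → κ × Bool,
      (∀ b t : ZMod (2 ^ m), ∀ F : Finset (ZMod (2 ^ m)), F.card = 3 →
        c (F.image (fun x => (4 * b + 1) * x + t)) = c F) ∧ NoHom univ 3 (2 * (n + 2)) c := by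
  have h1 := colT_noHom (vl_ult m) (sg_anti m) (Finset.univ : Finset (ZMod (2 ^ m))) (vl_two m)
    (fun x _ y _ hxy => vl_lt m hxy) χ hχ (by norm_num)
  refine ⟨_, fun b t F hF => ?_, h1⟩
  have ha : IsUnit (4 * b + 1 : ZMod (2 ^ m)) := by
    have := odd_unit m (2 * b)
    convert this using 1
    ring
  exact colT_image (affine_inj ha t) (fun x y _ => vl_affine ha t x y) ((sg_affine ha t).2 ⟨b, rfl⟩)
    χ F (by omega)

end cyc

end Pool.Agent.N481.SY
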