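import Pool.Agent.N481.SY.Chain

/-!
# The colourings for `r = 3` and `r = 2`, with signs
-/

set_option autoImplicit false
set_option linter.unusedSectionVars false

open Finset

namespace Pool.Agent.N481.SY

variable {V κ : Type*} [DecidableEq V] {h : V → V → ℕ} {s : V → V → Bool}

/-- `s` is antisymmetric at the pairs which are not of maximal level -/
def Anti (h : V → V → ℕ) (s : V → V → Bool) : Prop :=
  ∀ x y z, x ≠ y → x ≠ z → h x y < h x z → s x y ≠ s y x

/-- top leaf with a constant sign -/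
def TopS (h : V → V → ℕ) (s : V → V → Bool) (F : Finset V) (a : V) (ε : Bool) : Prop :=
  Top h F a ∧ ∀ x ∈ F, x ≠ a → s a x = ε

lemma Top.mono {F G : Finset V} {a : V} (ht : Top h F a) (hG : G ⊆ F) (ha : a ∈ G) : Top h G a := by
  obtain ⟨-, k, h1, h2⟩ := ht
  exact ⟨ha, k, fun x hx => h1 x (hG hx), fun x hx y hy => h2 x (hG hx) y (hG hy)⟩

lemma top_triple (hu : Ult h) {a x y : V} {k : ℕ} (h1 : h a x = k) (h2 : h a y = k)
    (h3 : k < h x y) : Top h {a, x, y} a := by
  refine ⟨by simp, k, ?_, ?_⟩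
  · intro u hu' hua
    simp only [mem_insert, mem_singleton] at hu'
    rcases hu' with rfl | rfl | rfl
    · exact absurd rfl hua
    · exact h1
    · exact h2
  · intro u hu' w hw hua hwa huw
    simp only [mem_insert, mem_singleton] at hu' hw
    rcases hu' with rfl | rfl | rfl
    · exact absurd rfl hua
    · rcases hw with rfl | rfl | rfl
      · exact absurd rfl hwa
      · exact absurd rfl huw
      · exact h3
    · rcases hw with rfl | rfl | rfl
      · exact absurd rfl hwa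
      · rw [hu.symm]; exact h3
      · exact absurd rfl huw

lemma card_triple {a x y : V} (h1 : a ≠ x) (h2 : a ≠ y) (h3 : x ≠ y) :
    ({a, x, y} : Finset V).card = 3 := Finset.card_eq_three.2 ⟨a, x, y, h1, h2, h3, rfl⟩

lemma sub_triple {X : Finset V} {a x y : V} (h1 : a ∈ X) (h2 : x ∈ X) (h3 : y ∈ X) :
    ({a, x, y} : Finset V) ⊆ X := by
  intro z hz
  simp only [mem_insert, mem_singleton] at hz
  rcases hz with rfl | rfl | rfl <;> assumption

/-- if all triples have a top leaf with sign `ε` then so does `X` -/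
lemma topS_of_triples (hu : Ult h) (hs : Anti h s) {ε : Bool} (X : Finset V) (hX : 3 ≤ X.card)
    (hall : ∀ F ⊆ X, F.card = 3 → ∃ b, TopS h s F b ε) : ∃ b, TopS h s X b ε := by
  rcases trichotomy hu X (by omega) with ⟨b, hb⟩ | ⟨k, hmin, ⟨u, hu', v, hv, w, hw, huv, hvw, huw, e1, e2, e3⟩ |
    ⟨x, hx, x', hx', y, hy, y', hy', hxx, hyy, h1, h2, h3, h4, e1, e2, e3, e4, g1, g2⟩⟩
  · refine ⟨b, hb, fun x hx hxb => ?_⟩
    obtain ⟨x', hx', hx'b, hx'x⟩ : ∃ x' ∈ X, x' ≠ b ∧ x' ≠ x := by
      have h1 : ({b, x} : Finset V).card < X.card := lt_of_le_of_lt card_le_two (by omega)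
      obtain ⟨x', hx', hx''⟩ := Finset.exists_mem_notMem_of_card_lt_card h1
      simp only [mem_insert, mem_singleton, not_or] at hx''
      exact ⟨x', hx', hx''⟩
    have hsub : ({b, x, x'} : Finset V) ⊆ X := sub_triple hb.1 hx hx'
    have hc := card_triple (Ne.symm hxb) (Ne.symm hx'b) (Ne.symm hx'x)
    obtain ⟨c, hc1, hc2⟩ := hall _ hsub hc
    have e := top_unique hu (hb.mono hsub (by simp)) hc1 (by rw [hc])
    rw [e]
    exact hc2 x (by simp) (by rw [← e]; exact hxb)
  · exfalso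
    have hsub : ({u, v, w} : Finset V) ⊆ X := sub_triple hu' hv hw
    obtain ⟨b, hb, -⟩ := hall _ hsub (card_triple huv huw hvw)
    have huF : u ∈ ({u, v, w} : Finset V) := by simp
    have hvF : v ∈ ({u, v, w} : Finset V) := by simp
    have hwF : w ∈ ({u, v, w} : Finset V) := by simp
    by_cases hub : u = b
    · exact top_no_pair hmin hsub hb hvF hwF hvw (by rw [← hub]; exact huv.symm)
        (by rw [← hub]; exact huw.symm) e2
    · by_cases hvb : v = b
      · exact top_no_pair hmin hsub hb huF hwF huw hub (by rw [← hvb]; exact hvw.symm) e3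
      · exact top_no_pair hmin hsub hb huF hvF huv hub hvb e1
  · exfalso
    have t1 : Top h {y, x, x'} y := top_triple hu (by rw [hu.symm]; exact e1) (by rw [hu.symm]; exact e3) g1
    have t2 : Top h {x, y, y'} x := top_triple hu e1 e2 g2
    have c1 : ({y, x, x'} : Finset V).card = 3 := card_triple h1.symm h3.symm hxx
    have c2 : ({x, y, y'} : Finset V).card = 3 := card_triple h1 h2 hyy
    obtain ⟨b1, hb1, hb1'⟩ := hall _ (sub_triple hy hx hx') c1
    obtain ⟨b2, hb2, hb2'⟩ := hall _ (sub_triple hx hy hy') c2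
    have f1 := top_unique hu t1 hb1 (by rw [c1])
    have f2 := top_unique hu t2 hb2 (by rw [c2])
    subst f1
    subst f2
    have s1 := hb1' x (by simp) h1
    have s2 := hb2' y (by simp) h1.symm
    exact hs x y x' h1 hxx (by rw [e1]; exact g1) (by rw [s1, s2])

/-- if all quadruples have a top leaf with a constant sign then so does `X` -/
lemma topS_of_quads (hu : Ult h) (X : Finset V) (hX : 4 ≤ X.card)
    (hall : ∀ F ⊆ X, F.card = 4 → ∃ b ε, TopS h s F b ε) : ∃ b, Top h X b ∧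
      ∃ ε, ∀ x ∈ X, x ≠ b → s b x = ε := by
  obtain ⟨b, hb⟩ := top_of_all hu le_rfl X hX (fun F hF hc => by
    obtain ⟨b, ε, hb⟩ := hall F hF hc
    exact ⟨b, hb.1⟩)
  obtain ⟨x0, hx0, hx0b⟩ : ∃ x0 ∈ X, x0 ≠ b := by
    have h1 : ({b} : Finset V).card < X.card := by rw [card_singleton]; omega
    obtain ⟨x', hx', hx''⟩ := Finset.exists_mem_notMem_of_card_lt_card h1
    exact ⟨x', hx', by simpa using hx''⟩
  refine ⟨b, hb, s b x0, fun x hx hxb => ?_⟩
  by_cases hxx : x = x0
  · rw [hxx]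
  obtain ⟨x', hx', h1, h2, h3⟩ : ∃ x' ∈ X, x' ≠ b ∧ x' ≠ x0 ∧ x' ≠ x := by
    have h1 : ({b, x0, x} : Finset V).card < X.card := lt_of_le_of_lt card_le_three (by omega)
    obtain ⟨x', hx', hx''⟩ := Finset.exists_mem_notMem_of_card_lt_card h1
    simp only [mem_insert, mem_singleton, not_or] at hx''
    exact ⟨x', hx', hx''⟩
  have hsub : ({x', b, x0, x} : Finset V) ⊆ X := insert_subset hx' (sub_triple hb.1 hx0 hx)
  have hc : ({x', b, x0, x} : Finset V).card = 4 := by
    rw [card_insert_of_notMem (by simp [h1, h2, h3]),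
      card_triple (Ne.symm hx0b) (Ne.symm hxb) (Ne.symm hxx)]
  obtain ⟨c, ε, hc1, hc2⟩ := hall _ hsub hc
  have e := top_unique hu (hb.mono hsub (by simp)) hc1 (by rw [hc]; omega)
  subst e
  rw [hc2 x (by simp) hxb, hc2 x0 (by simp) hx0b]

/-! ## `r = 3` -/

open Classical in
/-- the colouring determined by the tree and the signs -/
noncomputable def colS (h : V → V → ℕ) (s : V → V → Bool) (χ : Finset ℕ → κ) (β ρ : κ)
    (F : Finset V) : κ :=
  if ∃ a ε, TopS h s F a ε ∧ ∃ b, TopS h s (F.erase a) b ε then χ (hts h F)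
  else if ∃ a ε, TopS h s F a ε then ρ else β

lemma colS_chn {S : Finset V} {N : ℕ} {b : ℕ → V} {z : V} {η : ℕ → ℕ} (C : Chn h S N b z η)
    (hu : Ult h) {r : ℕ} (hr : 2 ≤ r) (χ : Finset ℕ → κ) (β ρ : κ) {I : Finset ℕ}
    (hI : I ⊆ range (N + 1)) (hIc : I.card = r) {ε : Bool}
    (hs : ∀ i ∈ I, (∀ j ∈ I, i < j → s (b i) (b j) = ε) ∧ s (b i) z = ε) :
    colS h s χ β ρ (leaves b z I) = χ (I.image η) := by
  have hne : I.Nonempty := card_pos.1 (by omega)
  obtain ⟨i, hi, himin⟩ : ∃ i ∈ I, ∀ j ∈ I, i ≤ j := ⟨I.min' hne, I.min'_mem hne, fun j hj => I.min'_le j hj⟩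
  have hne2 : (I.erase i).Nonempty := card_pos.1 (by rw [card_erase_of_mem hi]; omega)
  obtain ⟨j, hj, hjmin⟩ : ∃ j ∈ I.erase i, ∀ l ∈ I.erase i, j ≤ l :=
    ⟨(I.erase i).min' hne2, (I.erase i).min'_mem hne2, fun l hl => (I.erase i).min'_le l hl⟩
  have hI2 : I.erase i ⊆ range (N + 1) := (erase_subset _ _).trans hI
  have key : ∀ (I' : Finset ℕ) (i : ℕ), I' ⊆ I → i ∈ I' → (∀ j ∈ I', i ≤ j) →
      TopS h s (leaves b z I') (b i) ε := by
    intro I' i hI' hi hmin
    refine ⟨C.top hu (hI'.trans hI) hi hmin, ?_⟩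
    intro x hx hxi
    unfold leaves at hx
    rw [mem_insert, mem_image] at hx
    rcases hx with rfl | ⟨l, hl, rfl⟩
    · exact (hs i (hI' hi)).2
    · exact (hs i (hI' hi)).1 l (hI' hl) (lt_of_le_of_ne (hmin l hl) (fun e => hxi (by rw [e])))
  have h1 := key I i (Subset.refl _) hi himin
  have h2 := key (I.erase i) j (erase_subset _ _) hj hjmin
  rw [← C.erase hI hi] at h2
  unfold colS
  rw [if_pos ⟨b i, ε, h1, b j, h2⟩, C.hts hu hI]

/-- **Stepping up, `r = 3`.** -/
theorem colS_noHom (hu : Ult h) (hs : Anti h s) {K m n : ℕ} (U : Finset V)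
    (hK : ∀ (E : Finset V) (j : ℕ), (∀ x ∈ E, ∀ y ∈ E, x ≠ y → h x y = j) → E.card ≤ K)
    (hm : ∀ x ∈ U, ∀ y ∈ U, x ≠ y → h x y < m) (χ : Finset ℕ → κ) (hχ : NoHom (range m) 3 n χ)
    (β ρ : κ) (hβρ : β ≠ ρ) (hK1 : 1 ≤ K) : NoHom U 4 (K * (2 * (n + 3))) (colS h s χ β ρ) := by
  classical
  intro S hSU hS γ
  by_contra hcon
  push Not at hcon
  have hmS : ∀ T ⊆ S, ∀ x ∈ T, ∀ y ∈ T, x ≠ y → h x y < m := fun T hT x hx y hy hxy =>
    hm x (hSU (hT hx)) y (hSU (hT hy)) hxy
  have hScard : 2 * (n + 3) ≤ S.card := by rw [hS]; exact Nat.le_mul_of_pos_left _ hK1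
  by_cases hγ : γ = β
  · obtain ⟨A, hAS, a, haS, haA, hsz, k, hak, hAk⟩ := big_class hu hK S (by omega)
    have hAc : 2 * (n + 3) ≤ A.card := by
      rw [hS] at hsz
      exact Nat.le_of_mul_le_mul_left hsz hK1
    -- the majority sign
    obtain ⟨ε, A', hA', hA'c, hA's⟩ : ∃ ε, ∃ A' ⊆ A, n + 3 ≤ A'.card ∧ ∀ x ∈ A', s a x = ε := by
      have h1 := Finset.card_filter_add_card_filter_not (s := A) (fun x => s a x = true)
      by_cases h2 : n + 3 ≤ (A.filter (fun x => s a x = true)).card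
      · exact ⟨true, _, filter_subset _ _, h2, fun x hx => (mem_filter.1 hx).2⟩
      · refine ⟨false, A.filter (fun x => ¬ s a x = true), filter_subset _ _, by omega, fun x hx => ?_⟩
        simpa using (mem_filter.1 hx).2
    have htop : ∀ F ⊆ A', F.card = 3 → ∃ b, TopS h s F b ε := by
      intro F hF hFc
      have hFA := hF.trans hA'
      have haF : a ∉ F := fun e => haA (hFA e)
      have h1 := hcon (insert a F) (insert_subset haS (hFA.trans hAS))
        (by rw [card_insert_of_notMem haF, hFc])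
      have hta : Top h (insert a F) a := by
        refine ⟨mem_insert_self _ _, k, ?_, ?_⟩
        · intro x hx hxa
          exact hak x (hFA (mem_of_mem_insert_of_ne hx hxa))
        · intro x hx y hy hxa hya hxy
          exact hAk x (hFA (mem_of_mem_insert_of_ne hx hxa)) y (hFA (mem_of_mem_insert_of_ne hy hya)) hxy
      have hta' : TopS h s (insert a F) a ε :=
        ⟨hta, fun x hx hxa => hA's x (hF (mem_of_mem_insert_of_ne hx hxa))⟩
      by_contra hno
      have h2 : ¬ ∃ a' ε', TopS h s (insert a F) a' ε' ∧ ∃ b, TopS h s ((insert a F).erase a') b ε' := by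
        rintro ⟨a', ε', ha', b, hb⟩
        have e := top_unique hu hta ha'.1 (by rw [card_insert_of_notMem haF, hFc]; omega)
        subst e
        obtain ⟨x, hx⟩ : F.Nonempty := card_pos.1 (by omega)
        have hxa : x ≠ a := fun e => haF (e ▸ hx)
        have e1 := ha'.2 x (mem_insert_of_mem hx) hxa
        have e2 := hta'.2 x (mem_insert_of_mem hx) hxa
        have e3 : ε' = ε := by rw [← e1, ← e2]
        subst e3
        rw [erase_insert haF] at hb
        exact hno ⟨b, hb⟩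
      unfold colS at h1
      rw [if_neg h2, if_pos ⟨a, ε, hta'⟩, hγ] at h1
      exact hβρ h1.symm
    obtain ⟨b, z, η, X, C, hQ, hX1, hX2⟩ := chain_of (h := h)
      (fun b X => ∀ x ∈ X, x ≠ b → s b x = ε) (t := 3) (by omega)
      (A'.card - 3) A' (fun X hX hc => by
        obtain ⟨b, hb⟩ := topS_of_triples hu hs X hc (fun F hF => htop F (hF.trans hX))
        exact ⟨b, hb.1, hb.2⟩) (by omega)
    have h3 := C.short hχ (hmS A' (hA'.trans hAS)) β (range (A'.card - 3 + 1)) (Subset.refl _)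
      (fun I hI hIc => by
      have hIN : ∀ i ∈ I, i ≤ A'.card - 3 := fun i hi => by have := mem_range.1 (hI hi); omega
      rw [← colS_chn (s := s) C hu (by omega) χ β ρ hI hIc (ε := ε) (fun i hi => ⟨fun j hj hij =>
          hQ i (hIN i hi) (b j) (hX1 i j hij.le (hIN j hj)) (C.ne i j hij (hIN j hj)).symm,
          hQ i (hIN i hi) z (hX2 i (hIN i hi)) (C.nez i (hIN i hi)).symm⟩),
        hcon _ ((C.sub hI).trans (hA'.trans hAS)) (by rw [C.card hI, hIc]), hγ])
    rw [card_range] at h3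
    omega
  · have htop : ∀ F ⊆ S, F.card = 4 → ∃ b ε, TopS h s F b ε := by
      intro F hF hFc
      by_contra hno
      have h1 := hcon F hF hFc
      have h2 : ¬ ∃ a' ε', TopS h s F a' ε' ∧ ∃ b, TopS h s (F.erase a') b ε' := by
        rintro ⟨a', ε', ha', -⟩
        exact hno ⟨a', ε', ha'⟩
      unfold colS at h1
      rw [if_neg h2, if_neg hno] at h1
      exact hγ h1.symm
    obtain ⟨b, z, η, X, C, hQ, hX1, hX2⟩ := chain_of (h := h)
      (fun b X => ∃ ε, ∀ x ∈ X, x ≠ b → s b x = ε) (t := 4) (by omega)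
      (S.card - 4) S (fun X hX hc => topS_of_quads hu X hc (fun F hF => htop F (hF.trans hX)))
      (by omega)
    obtain ⟨N, hN⟩ : ∃ N, N = S.card - 4 := ⟨_, rfl⟩
    rw [← hN] at C hQ hX1 hX2
    choose! ε hε using hQ
    obtain ⟨ε', J, hJ, hJc, hJs⟩ : ∃ ε', ∃ J ⊆ range (N + 1), N + 1 ≤ 2 * J.card ∧ ∀ i ∈ J, ε i = ε' := by
      have h1 := Finset.card_filter_add_card_filter_not (s := range (N + 1)) (fun i => ε i = true)
      rw [card_range] at h1
      by_cases h2 : N + 1 ≤ 2 * ((range (N + 1)).filter (fun i => ε i = true)).card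
      · exact ⟨true, _, filter_subset _ _, h2, fun x hx => (mem_filter.1 hx).2⟩
      · refine ⟨false, (range (N + 1)).filter (fun i => ¬ ε i = true), filter_subset _ _, by omega,
          fun x hx => ?_⟩
        simpa using (mem_filter.1 hx).2
    have h3 := C.short hχ (hmS S (Subset.refl _)) γ J hJ
      (fun I hI hIc => by
      have hI' : I ⊆ range (N + 1) := hI.trans hJ
      have hIN : ∀ i ∈ I, i ≤ N := fun i hi => by have := mem_range.1 (hI' hi); omega
      rw [← colS_chn (s := s) C hu (by omega) χ β ρ hI' hIc (ε := ε') (fun i hi => ⟨fun j hj hij => by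
          rw [hε i (hIN i hi) (b j) (hX1 i j hij.le (hIN j hj)) (C.ne i j hij (hIN j hj)).symm]
          exact hJs i (hI hi), by
          rw [hε i (hIN i hi) z (hX2 i (hIN i hi)) (C.nez i (hIN i hi)).symm]
          exact hJs i (hI hi)⟩)]
      exact hcon _ (C.sub hI') (by rw [C.card hI', hIc]))
    omega

/-! ## `r = 2` -/

open Classical in
/-- the colouring of triples, with `2 q` colours -/
noncomputable def colT (h : V → V → ℕ) (s : V → V → Bool) (χ : Finset ℕ → κ) (F : Finset V) :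
    κ × Bool := (χ (hts h F), decide (∃ a, TopS h s F a true))

lemma bool_fact : ∀ (p q r p' q' r' : Bool), ¬ (p = true ∧ q = true) → ¬ (p = true ∧ r = true) →
    ¬ (q = true ∧ r = true) → ¬ (p' = true ∧ q' = true) → ¬ (p' = true ∧ r' = true) →
    ¬ (q' = true ∧ r' = true) → (p = false → p' = false → False) →
    (q = false → q' = false → False) → (r = false → r' = false → False) → False := by
  intro p q r p' q' r' a1 a2 a3 b1 b2 b3 c1 c2 c3
  cases p <;> cases q <;> cases r <;> cases p' <;> cases q' <;> cases r' <;> simp at *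

/-- no triple with a top leaf of sign `true`: there are not a class with three points and another
class with two points -/
lemma no_two (hu : Ult h) (hs : Anti h s) (X : Finset V)
    (hall : ∀ F ⊆ X, F.card = 3 → ¬ ∃ b, TopS h s F b true) :
    ∀ k, ∀ x ∈ X, ∀ x' ∈ X, ∀ w ∈ X, ∀ y ∈ X, ∀ y' ∈ X, x ≠ x' → x ≠ w → x' ≠ w → y ≠ y' →
      x ≠ y → x ≠ y' → x' ≠ y → x' ≠ y' → w ≠ y → w ≠ y' →
      h x y = k → h x y' = k → h x' y = k → h x' y' = k → h w y = k → h w y' = k →
      k < h x x' → k < h x w → k < h x' w → k < h y y' → False := by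
  intro k x hx x' hx' w hw y hy y' hy' n1 n2 n3 n4 n5 n6 n7 n8 n9 n10 e1 e2 e3 e4 e5 e6 g1 g2 g3 g4
  -- `y` has at most one sign `true`
  have hy2 : ∀ v ∈ X, ∀ u ∈ X, ∀ u' ∈ X, v ≠ u → v ≠ u' → u ≠ u' → h v u = k → h v u' = k → k < h u u' →
      ¬ (s v u = true ∧ s v u' = true) := by
    intro v hv u hu' u' hu'' m1 m2 m3 f1 f2 f3 ⟨f4, f5⟩
    refine hall _ (sub_triple hv hu' hu'') (card_triple m1 m2 m3) ⟨v, top_triple hu f1 f2 f3, ?_⟩
    intro z hz hzv
    simp only [mem_insert, mem_singleton] at hz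
    rcases hz with rfl | rfl | rfl
    · exact absurd rfl hzv
    · exact f4
    · exact f5
  -- flip
  have fl : ∀ u ∈ X, ∀ u' ∈ X, ∀ v, u ≠ u' → u ≠ v → h u v = k → k < h u u' → s v u = false →
      s u v = true := by
    intro u _ u' _ v m1 m2 f1 f2 f3
    have := hs u v u' m2 m1 (by rw [f1]; exact f2)
    rw [f3] at this
    simpa using this
  have fin : ∀ u ∈ X, ∀ u' ∈ X, u ≠ u' → u ≠ y → u ≠ y' → h u y = k → h u y' = k → k < h u u' →
      s y u = false → s y' u = false → False := by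
    intro u hu' u' hu'' m1 m2 m3 f1 f2 f3 f4 f5
    exact hy2 u hu' y hy y' hy' m2 m3 n4 f1 f2 g4 ⟨fl u hu' u' hu'' y m1 m2 f1 f3 f4,
      fl u hu' u' hu'' y' m1 m3 f2 f3 f5⟩
  have a1 := hy2 y hy x hx x' hx' n5.symm n7.symm n1 (by rw [hu.symm]; exact e1) (by rw [hu.symm]; exact e3) g1
  have a2 := hy2 y hy x hx w hw n5.symm n9.symm n2 (by rw [hu.symm]; exact e1) (by rw [hu.symm]; exact e5) g2
  have a3 := hy2 y hy x' hx' w hw n7.symm n9.symm n3 (by rw [hu.symm]; exact e3) (by rw [hu.symm]; exact e5) g3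
  have b1 := hy2 y' hy' x hx x' hx' n6.symm n8.symm n1 (by rw [hu.symm]; exact e2) (by rw [hu.symm]; exact e4) g1
  have b2 := hy2 y' hy' x hx w hw n6.symm n10.symm n2 (by rw [hu.symm]; exact e2) (by rw [hu.symm]; exact e6) g2
  have b3 := hy2 y' hy' x' hx' w hw n8.symm n10.symm n3 (by rw [hu.symm]; exact e4) (by rw [hu.symm]; exact e6) g3
  have c1 := fin x hx x' hx' n1 n5 n6 e1 e2 g1
  have c2 := fin x' hx' x hx n1.symm n7 n8 e3 e4 (by rw [hu.symm]; exact g1)
  have c3 := fin w hw x hx n2.symm n9 n10 e5 e6 (by rw [hu.symm]; exact g2)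
  exact bool_fact _ _ _ _ _ _ a1 a2 a3 b1 b2 b3 c1 c2 c3

/-- a set without triples with a top leaf of sign `true`: after the removal of at most `K` points
there are a leaf and a set below it -/
lemma step_false (hu : Ult h) (hs : Anti h s) {K : ℕ}
    (hK : ∀ (E : Finset V) (j : ℕ), (∀ x ∈ E, ∀ y ∈ E, x ≠ y → h x y = j) → E.card ≤ K)
    (X : Finset V) (hX : 2 * K + 1 ≤ X.card) (hX2 : 2 ≤ X.card)
    (hall : ∀ F ⊆ X, F.card = 3 → ¬ ∃ b, TopS h s F b true) :
    ∃ b ∈ X, ∃ Y ⊆ X, b ∉ Y ∧ X.card ≤ Y.card + K ∧ ∃ k, (∀ x ∈ Y, h b x = k) ∧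
      ∀ x ∈ Y, ∀ y ∈ Y, x ≠ y → k < h x y := by
  obtain ⟨A, hA, ⟨a, ha, haA⟩, h1, k, h2, h3, h4⟩ := big_class' hu hK X hX2
  refine ⟨a, ha, A, hA, haA, ?_, k, h2 a ha haA, h3⟩
  -- `A` has at least three points
  have hA3 : 3 ≤ A.card := by
    by_contra hcon
    have : K * A.card ≤ K * 2 := Nat.mul_le_mul_left _ (by omega)
    omega
  obtain ⟨x, hx, x', hx', w, hw, n1, n2, n3⟩ : ∃ x ∈ A, ∃ x' ∈ A, ∃ w ∈ A, x ≠ x' ∧ x ≠ w ∧ x' ≠ w := by
    obtain ⟨x, y, z, hx, hy, hz, h1, h2, h3⟩ := Finset.two_lt_card_iff.1 (show 2 < A.card by omega)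
    exact ⟨x, hx, y, hy, z, hz, h1, h2, h3⟩
  have hne : ∀ u ∈ A, ∀ y ∈ X \ A, u ≠ y := fun u hu' y hy e => (mem_sdiff.1 hy).2 (e ▸ hu')
  have hk : ∀ y ∈ X \ A, ∀ u ∈ A, h u y = k := fun y hy u hu' => by
    rw [hu.symm]; exact h2 y (mem_sdiff.1 hy).1 (mem_sdiff.1 hy).2 u hu'
  have heq : ∀ y ∈ X \ A, ∀ y' ∈ X \ A, y ≠ y' → h y y' = k := by
    intro y hy y' hy' hyy
    by_contra hcon
    have h5 : k < h y y' := lt_of_le_of_ne (h4 y (mem_sdiff.1 hy).1 y' (mem_sdiff.1 hy').1 hyy) (Ne.symm hcon)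
    exact no_two hu hs X hall k x (hA hx) x' (hA hx') w (hA hw) y (mem_sdiff.1 hy).1 y'
      (mem_sdiff.1 hy').1 n1 n2 n3 hyy (hne x hx y hy) (hne x hx y' hy') (hne x' hx' y hy)
      (hne x' hx' y' hy') (hne w hw y hy) (hne w hw y' hy') (hk y hy x hx) (hk y' hy' x hx)
      (hk y hy x' hx') (hk y' hy' x' hx') (hk y hy w hw) (hk y' hy' w hw) (h3 x hx x' hx' n1)
      (h3 x hx w hw n2) (h3 x' hx' w hw n3) h5
  have h6 := hK (X \ A) k heq
  have h7 := card_sdiff_add_card_eq_card hA
  omega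

/-- chains from steps which remove at most `K` points -/
lemma chain_gen {K t : ℕ} (hKt : K < t) (N : ℕ) : ∀ S : Finset V,
    (∀ X ⊆ S, t ≤ X.card → ∃ b ∈ X, ∃ Y ⊆ X, b ∉ Y ∧ X.card ≤ Y.card + K ∧
      ∃ k, (∀ x ∈ Y, h b x = k) ∧ ∀ x ∈ Y, ∀ y ∈ Y, x ≠ y → k < h x y) → t + K * N ≤ S.card →
    ∃ (b : ℕ → V) (z : V) (η : ℕ → ℕ), Chn h S N b z η := by
  induction N with
  | zero =>
    intro S hS hc
    obtain ⟨b, hb, Y, hY, hbY, hcY, k, h1, -⟩ := hS S (Subset.refl _) (by omega)
    obtain ⟨z, hz⟩ : Y.Nonempty := card_pos.1 (by omega)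
    refine ⟨fun _ => b, z, fun _ => k, fun _ _ => hb, hY hz, ?_, fun _ _ e => hbY (e ▸ hz), ?_,
      fun _ _ => h1 z hz, ?_⟩ <;>
    · intro i j hij hj
      omega
  | succ N ih =>
    intro S hS hc
    have hc' : t + K * N + K ≤ S.card := by rw [Nat.mul_succ] at hc; omega
    obtain ⟨b, hb, Y, hY, hbY, hcY, k, h1, h2⟩ := hS S (Subset.refl _) (by omega)
    obtain ⟨b', z, η', C⟩ := ih Y (fun X hX => hS X (hX.trans hY)) (by omega)
    refine ⟨fun i => if i = 0 then b else b' (i - 1), z, fun i => if i = 0 then k else η' (i - 1),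
      ?_, hY C.memz, ?_, ?_, ?_, ?_, ?_⟩
    · intro i hi
      by_cases h0 : i = 0
      · simp only [h0, if_true]; exact hb
      · simp only [if_neg h0]; exact hY (C.mem _ (by omega))
    · intro i j hij hj
      have hj0 : j ≠ 0 := by omega
      simp only [if_neg hj0]
      by_cases h0 : i = 0
      · simp only [h0, if_true]
        intro e
        exact hbY (e ▸ C.mem (j - 1) (by omega))
      · simp only [if_neg h0]
        exact C.ne _ _ (by omega) (by omega)
    · intro i hi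
      by_cases h0 : i = 0
      · simp only [h0, if_true]
        intro e
        exact hbY (e ▸ C.memz)
      · simp only [if_neg h0]; exact C.nez _ (by omega)
    · intro i j hij hj
      have hj0 : j ≠ 0 := by omega
      simp only [if_neg hj0]
      by_cases h0 : i = 0
      · simp only [h0, if_true]
        exact h1 _ (C.mem _ (by omega))
      · simp only [if_neg h0]
        exact C.ht _ _ (by omega) (by omega)
    · intro i hi
      by_cases h0 : i = 0
      · simp only [h0, if_true]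
        exact h1 _ C.memz
      · simp only [if_neg h0]; exact C.htz _ (by omega)
    · intro i j hij hj
      have hj0 : j ≠ 0 := by omega
      simp only [if_neg hj0]
      by_cases h0 : i = 0
      · simp only [h0, if_true]
        rw [← C.htz (j - 1) (by omega)]
        exact h2 _ (C.mem _ (by omega)) _ C.memz (C.nez _ (by omega))
      · simp only [if_neg h0]
        exact C.mono _ _ (by omega) (by omega)

/-- **Stepping up, `r = 2`.** -/
theorem colT_noHom (hu : Ult h) (hs : Anti h s) {K m n : ℕ} (U : Finset V)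
    (hK : ∀ (E : Finset V) (j : ℕ), (∀ x ∈ E, ∀ y ∈ E, x ≠ y → h x y = j) → E.card ≤ K)
    (hm : ∀ x ∈ U, ∀ y ∈ U, x ≠ y → h x y < m) (χ : Finset ℕ → κ) (hχ : NoHom (range m) 2 n χ)
    (hK1 : 1 ≤ K) : NoHom U 3 (K * (n + 2)) (colT h s χ) := by
  classical
  intro S hSU hS γ
  by_contra hcon
  push Not at hcon
  have hmS : ∀ x ∈ S, ∀ y ∈ S, x ≠ y → h x y < m := fun x hx y hy hxy =>
    hm x (hSU hx) y (hSU hy) hxy
  have hScard : n + 2 ≤ S.card := by rw [hS]; exact Nat.le_mul_of_pos_left _ hK1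
  by_cases hn : n = 0
  · subst hn
    obtain ⟨e, he, hc, -⟩ := hχ ∅ (by simp) (by simp) γ.1
    rw [subset_empty.1 he] at hc
    simp at hc
  obtain ⟨b, z, η, C⟩ : ∃ (b : ℕ → V) (z : V) (η : ℕ → ℕ), Chn h S (n - 1) b z η := by
    cases hγ : γ.2 with
    | true =>
      have h5 : ∀ X ⊆ S, 3 ≤ X.card → ∃ b ∈ X, ∃ Y ⊆ X, b ∉ Y ∧ X.card ≤ Y.card + 1 ∧
          ∃ k, (∀ x ∈ Y, h b x = k) ∧ ∀ x ∈ Y, ∀ y ∈ Y, x ≠ y → k < h x y := by
        intro X hX hc
        obtain ⟨b, hb⟩ := topS_of_triples (s := s) (ε := true) hu hs X hc (fun F hF hFc => by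
          have h1 := congrArg Prod.snd (hcon F (hF.trans hX) hFc)
          rw [hγ] at h1
          simpa [colT] using h1)
        obtain ⟨hbX, k, h1, h2⟩ := hb.1
        refine ⟨b, hbX, X.erase b, erase_subset _ _, notMem_erase _ _, ?_, k, ?_, ?_⟩
        · rw [card_erase_of_mem hbX]; omega
        · intro x hx
          exact h1 x (mem_of_mem_erase hx) (ne_of_mem_erase hx)
        · intro x hx y hy hxy
          exact h2 x (mem_of_mem_erase hx) y (mem_of_mem_erase hy) (ne_of_mem_erase hx)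
            (ne_of_mem_erase hy) hxy
      exact chain_gen (by omega) (n - 1) S h5 (by omega)
    | false =>
      by_cases hK2 : K = 1
      · -- no two points have a level
        exfalso
        obtain ⟨x, hx, y, hy, hxy⟩ := Finset.one_lt_card.1 (show 1 < S.card by omega)
        have h6 := hK {x, y} (h x y) (by
          intro u hu' v hv huv
          simp only [mem_insert, mem_singleton] at hu' hv
          rcases hu' with rfl | rfl <;> rcases hv with rfl | rfl
          · exact absurd rfl huv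
          · rfl
          · exact hu.symm _ _
          · exact absurd rfl huv)
        rw [card_pair hxy] at h6
        omega
      refine chain_gen (K := K) (t := 2 * K + 1) (by omega) (n - 1) S (fun X hX hc => ?_) ?_
      · exact step_false hu hs hK X hc (by omega) (fun F hF hFc => by
          have h1 := congrArg Prod.snd (hcon F (hF.trans hX) hFc)
          rw [hγ] at h1
          simpa [colT] using h1)
      · rw [hS]
        obtain ⟨n', rfl⟩ : ∃ n', n = n' + 1 := ⟨n - 1, by omega⟩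
        have e1 : n' + 1 - 1 = n' := by omega
        rw [e1]
        have e2 : K * (n' + 1 + 2) = K * n' + 3 * K := by ring
        rw [e2]
        omega
  have h3 := C.short hχ hmS γ.1 (range (n - 1 + 1)) (Subset.refl _) (fun I hI hIc => by
    rw [← hcon _ (C.sub hI) (by rw [C.card hI, hIc])]
    show _ = χ (hts h (leaves b z I))
    rw [C.hts hu hI])
  rw [card_range] at h3
  omega

end Pool.Agent.N481.SY
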