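import Mathlib

/-!
# Stepping up with the symmetries of an ultrametric tree: abstract part
-/

set_option autoImplicit false
set_option linter.unusedSectionVars false

open Finset

namespace Pool.Agent.N481.SY

variable {V κ : Type*} [DecidableEq V]

/-- No homogeneous set with `n` elements inside `U`, for the colouring `c` of `r`-subsets. -/
def NoHom (U : Finset V) (r n : ℕ) (c : Finset V → κ) : Prop :=
  ∀ S ⊆ U, S.card = n → ∀ b : κ, ∃ e ⊆ S, e.card = r ∧ c e ≠ b

/-- `h x y` is the level at which the paths to the leaves `x ≠ y` of a tree separate. -/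
structure Ult (h : V → V → ℕ) : Prop where
  symm : ∀ x y, h x y = h y x
  ult : ∀ x y z, x ≠ y → y ≠ z → x ≠ z → min (h x y) (h y z) ≤ h x z

/-- `a` alone is separated from the rest of `F` at the root of `F` -/
def Top (h : V → V → ℕ) (F : Finset V) (a : V) : Prop :=
  a ∈ F ∧ ∃ k, (∀ x ∈ F, x ≠ a → h a x = k) ∧
    ∀ x ∈ F, ∀ y ∈ F, x ≠ a → y ≠ a → x ≠ y → k < h x y

/-- the levels of the branchings of `F` -/
def hts (h : V → V → ℕ) (F : Finset V) : Finset ℕ := F.offDiag.image (fun p => h p.1 p.2)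

variable {h : V → V → ℕ}

/-- a pair of minimal height -/
lemma exists_min (X : Finset V) (hX : 2 ≤ X.card) : ∃ x ∈ X, ∃ y ∈ X, x ≠ y ∧
    ∀ u ∈ X, ∀ w ∈ X, u ≠ w → h x y ≤ h u w := by
  have hne : X.offDiag.Nonempty := by
    obtain ⟨x, hx, y, hy, hxy⟩ := Finset.one_lt_card.1 hX
    exact ⟨(x, y), Finset.mem_offDiag.2 ⟨hx, hy, hxy⟩⟩
  obtain ⟨p, hp, hmin⟩ := Finset.exists_min_image X.offDiag (fun p => h p.1 p.2) hne
  rw [Finset.mem_offDiag] at hp
  exact ⟨p.1, hp.1, p.2, hp.2.1, hp.2.2, fun u hu w hw huw =>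
    hmin (u, w) (Finset.mem_offDiag.2 ⟨hu, hw, huw⟩)⟩

/-- if `F` has a pair at the minimal height, then the top leaf is one of its members -/
lemma top_no_pair {X F : Finset V} {k : ℕ} (hk : ∀ u ∈ X, ∀ w ∈ X, u ≠ w → k ≤ h u w)
    (hF : F ⊆ X) {b : V} (hb : Top h F b) {u w : V} (huF : u ∈ F) (hwF : w ∈ F) (huw : u ≠ w)
    (hub : u ≠ b) (hwb : w ≠ b) : h u w ≠ k := by
  obtain ⟨hbF, k', h1, h2⟩ := hb
  intro he
  have h3 := h2 u huF w hwF hub hwb huw
  have h4 := h1 u huF hub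
  have h5 := hk b (hF hbF) u (hF huF) hub.symm
  omega

/-- a large class below the root and the points outside of it -/
lemma big_class' (hu : Ult h) {K : ℕ}
    (hK : ∀ (E : Finset V) (j : ℕ), (∀ x ∈ E, ∀ y ∈ E, x ≠ y → h x y = j) → E.card ≤ K)
    (S : Finset V) (hS : 2 ≤ S.card) : ∃ A ⊆ S, (∃ a ∈ S, a ∉ A) ∧ S.card ≤ K * A.card ∧
      ∃ k, (∀ a ∈ S, a ∉ A → ∀ x ∈ A, h a x = k) ∧ (∀ x ∈ A, ∀ y ∈ A, x ≠ y → k < h x y) ∧
        ∀ u ∈ S, ∀ w ∈ S, u ≠ w → k ≤ h u w := by
  obtain ⟨x0, hx0, y0, hy0, hxy0, hmin⟩ := exists_min (h := h) S hS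
  obtain ⟨k, hk⟩ : ∃ k, k = h x0 y0 := ⟨_, rfl⟩
  rw [← hk] at hmin
  -- classes
  let cls : V → Finset V := fun x => S.filter (fun y => y = x ∨ k < h x y)
  have hcls : ∀ x ∈ S, ∀ y ∈ S, y ∉ cls x → h x y = k := by
    intro x hx y hy hyc
    simp only [cls, mem_filter, not_and, not_or, not_lt] at hyc
    obtain ⟨h1, h2⟩ := hyc hy
    exact le_antisymm h2 (hmin x hx y hy (Ne.symm h1))
  have hin : ∀ x ∈ S, ∀ y ∈ cls x, ∀ z ∈ cls x, y ≠ z → k < h y z := by
    intro x hx y hy z hz hyz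
    simp only [cls, mem_filter] at hy hz
    rcases hy.2 with rfl | hy2
    · rcases hz.2 with rfl | hz2
      · exact absurd rfl hyz
      · exact hz2
    · rcases hz.2 with rfl | hz2
      · rw [hu.symm]; exact hy2
      · by_cases hyx : y = x
        · rw [hyx]; exact hz2
        · by_cases hzx : z = x
          · rw [hzx, hu.symm]; exact hy2
          · have h3 := hu.ult y x z hyx (Ne.symm hzx) hyz
            rw [hu.symm y x] at h3
            have h4 : k < min (h x y) (h x z) := lt_min hy2 hz2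
            omega
  -- a maximal transversal
  obtain ⟨E, hE, hEmax⟩ := Finset.exists_max_image
    (S.powerset.filter (fun E => ∀ x ∈ E, ∀ y ∈ E, x ≠ y → h x y = k)) Finset.card
    ⟨∅, by simp⟩
  rw [mem_filter, mem_powerset] at hE
  have hEK : E.card ≤ K := hK E k hE.2
  have hcov : S ⊆ E.biUnion cls := by
    intro y hy
    rw [mem_biUnion]
    by_contra hcon
    push Not at hcon
    have hyE : y ∉ E := by
      intro hyE
      exact hcon y hyE (by simp [cls, hy])
    have hcard : (insert y E).card = E.card + 1 := card_insert_of_notMem hyE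
    have h3 := hEmax (insert y E) (by
      rw [mem_filter, mem_powerset]
      refine ⟨insert_subset hy hE.1, ?_⟩
      intro u hu' w hw' huw
      rw [mem_insert] at hu' hw'
      rcases hu' with rfl | hu'
      · rcases hw' with rfl | hw'
        · exact absurd rfl huw
        · rw [hu.symm]; exact hcls w (hE.1 hw') _ hy (hcon w hw')
      · rcases hw' with rfl | hw'
        · exact hcls u (hE.1 hu') _ hy (hcon u hu')
        · exact hE.2 u hu' w hw' huw)
    omega
  have hEne : E.Nonempty := by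
    by_contra hEe
    rw [not_nonempty_iff_eq_empty] at hEe
    rw [hEe] at hcov
    simp only [biUnion_empty, subset_empty] at hcov
    rw [hcov] at hS
    simp at hS
  obtain ⟨x, hxE, hxmax⟩ := Finset.exists_max_image E (fun x => (cls x).card) hEne
  have hxS : x ∈ S := hE.1 hxE
  have hsize : S.card ≤ K * (cls x).card := by
    calc S.card ≤ (E.biUnion cls).card := card_le_card hcov
      _ ≤ ∑ x ∈ E, (cls x).card := card_biUnion_le
      _ ≤ ∑ _y ∈ E, (cls x).card := sum_le_sum fun y hy => hxmax y hy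
      _ = E.card * (cls x).card := by rw [sum_const, smul_eq_mul]
      _ ≤ K * (cls x).card := Nat.mul_le_mul_right _ hEK
  -- a point outside
  have hout : ∃ a ∈ S, a ∉ cls x := by
    by_contra hcon
    push Not at hcon
    have h1 := hin x hxS x0 (hcon x0 hx0) y0 (hcon y0 hy0) hxy0
    omega
  refine ⟨cls x, filter_subset _ _, hout, hsize, k, ?_, hin x hxS, hmin⟩
  intro a haS hac y hy
  have hyS : y ∈ S := (mem_filter.1 hy).1
  have hay : a ≠ y := fun e => hac (e ▸ hy)
  have h1 : h x a = k := hcls x hxS a haS hac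
  by_cases hyx : y = x
  · rw [hyx, hu.symm]; exact h1
  · have hxy : k < h x y := by
      rcases (mem_filter.1 hy).2 with e | e
      · exact absurd e hyx
      · exact e
    have hax : a ≠ x := by
      intro e
      apply hac
      rw [e]
      simp [cls, hxS]
    have h2 : k ≤ h a y := hmin a haS y hyS hay
    -- `h a y > k` and `h x y > k` would give `h x a > k`
    by_contra hne
    have h3 : k < h a y := lt_of_le_of_ne h2 (Ne.symm hne)
    have h4 := hu.ult x y a (Ne.symm hyx) (Ne.symm hay) (Ne.symm hax)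
    rw [hu.symm y a] at h4
    have h5 : k < min (h x y) (h a y) := lt_min hxy h3
    omega

/-- a large class below the root and a point outside of it -/
lemma big_class (hu : Ult h) {K : ℕ}
    (hK : ∀ (E : Finset V) (j : ℕ), (∀ x ∈ E, ∀ y ∈ E, x ≠ y → h x y = j) → E.card ≤ K)
    (S : Finset V) (hS : 2 ≤ S.card) : ∃ A ⊆ S, ∃ a ∈ S, a ∉ A ∧ S.card ≤ K * A.card ∧
      ∃ k, (∀ x ∈ A, h a x = k) ∧ ∀ x ∈ A, ∀ y ∈ A, x ≠ y → k < h x y := by
  obtain ⟨A, hA, ⟨a, ha, haA⟩, h1, k, h2, h3, -⟩ := big_class' hu hK S hS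
  exact ⟨A, hA, a, ha, haA, h1, k, h2 a ha haA, h3⟩

/-- the possible structures below the root -/
lemma trichotomy (hu : Ult h) (X : Finset V) (hX : 2 ≤ X.card) :
    (∃ b, Top h X b) ∨ ∃ k, (∀ u ∈ X, ∀ w ∈ X, u ≠ w → k ≤ h u w) ∧
      ((∃ u ∈ X, ∃ v ∈ X, ∃ w ∈ X, u ≠ v ∧ v ≠ w ∧ u ≠ w ∧ h u v = k ∧ h v w = k ∧ h u w = k) ∨
       (∃ x ∈ X, ∃ x' ∈ X, ∃ y ∈ X, ∃ y' ∈ X, x ≠ x' ∧ y ≠ y' ∧ x ≠ y ∧ x ≠ y' ∧ x' ≠ y ∧ x' ≠ y' ∧
        h x y = k ∧ h x y' = k ∧ h x' y = k ∧ h x' y' = k ∧ k < h x x' ∧ k < h y y')) := by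
  obtain ⟨x0, hx0, y0, hy0, hxy0, hmin⟩ := exists_min (h := h) X hX
  obtain ⟨k, hk⟩ : ∃ k, k = h x0 y0 := ⟨_, rfl⟩
  rw [← hk] at hmin
  let A : Finset V := X.filter (fun y => y = x0 ∨ k < h x0 y)
  have hA0 : x0 ∈ A := by simp [A, hx0]
  have hyA : y0 ∉ A := by
    simp only [A, mem_filter, not_and, not_or, not_lt]
    intro _
    exact ⟨hxy0.symm, hk.ge⟩
  have hcls : ∀ y ∈ X, y ∉ A → h x0 y = k := by
    intro y hy hyc
    simp only [A, mem_filter, not_and, not_or, not_lt] at hyc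
    obtain ⟨h1, h2⟩ := hyc hy
    exact le_antisymm h2 (hmin x0 hx0 y hy (Ne.symm h1))
  have hAX : A ⊆ X := filter_subset _ _
  have hin : ∀ y ∈ A, y ≠ x0 → k < h x0 y := by
    intro y hy hyx
    rcases (mem_filter.1 hy).2 with e | e
    · exact absurd e hyx
    · exact e
  have hinA : ∀ y ∈ A, ∀ z ∈ A, y ≠ z → k < h y z := by
    intro y hy z hz hyz
    by_cases hyx : y = x0
    · rw [hyx]
      exact hin z hz (by rw [← hyx]; exact hyz.symm)
    · by_cases hzx : z = x0
      · rw [hzx, hu.symm]; exact hin y hy hyx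
      · have h3 := hu.ult y x0 z hyx (Ne.symm hzx) hyz
        rw [hu.symm y x0] at h3
        have h4 : k < min (h x0 y) (h x0 z) := lt_min (hin y hy hyx) (hin z hz hzx)
        omega
  have hcross : ∀ y ∈ A, ∀ z ∈ X, z ∉ A → h y z = k := by
    intro y hy z hz hzA
    by_cases hyx : y = x0
    · rw [hyx]; exact hcls z hz hzA
    · have hzx : z ≠ x0 := fun e => hzA (e ▸ hA0)
      have hyz : y ≠ z := fun e => hzA (e ▸ hy)
      by_contra hne
      have h3 : k < h y z := lt_of_le_of_ne (hmin y (hAX hy) z hz hyz) (Ne.symm hne)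
      have h4 := hu.ult x0 y z (Ne.symm hyx) hyz (Ne.symm hzx)
      have h5 : k < min (h x0 y) (h y z) := lt_min (hin y hy hyx) h3
      have h6 := hcls z hz hzA
      omega
  by_cases hB : ∃ y1 ∈ X, ∃ y2 ∈ X, y1 ∉ A ∧ y2 ∉ A ∧ y1 ≠ y2 ∧ h y1 y2 = k
  · obtain ⟨y1, hy1, y2, hy2, h1, h2, h3, h4⟩ := hB
    right
    refine ⟨k, hmin, Or.inl ⟨x0, hx0, y1, hy1, y2, hy2, fun e => h1 (e ▸ hA0), h3,
      fun e => h2 (e ▸ hA0), hcls y1 hy1 h1, h4, hcls y2 hy2 h2⟩⟩
  · have hBk : ∀ y1 ∈ X, ∀ y2 ∈ X, y1 ∉ A → y2 ∉ A → y1 ≠ y2 → k < h y1 y2 := by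
      intro y1 hy1 y2 hy2 h1 h2 h3
      rcases lt_or_eq_of_le (hmin y1 hy1 y2 hy2 h3) with h4 | h4
      · exact h4
      · exact absurd ⟨y1, hy1, y2, hy2, h1, h2, h3, h4.symm⟩ hB
    by_cases hA1 : ∃ x' ∈ A, x' ≠ x0
    · obtain ⟨x', hx', hxx⟩ := hA1
      by_cases hB1 : ∃ y' ∈ X, y' ∉ A ∧ y' ≠ y0
      · obtain ⟨y', hy', hy'A, hyy⟩ := hB1
        right
        refine ⟨k, hmin, Or.inr ⟨x0, hx0, x', hAX hx', y0, hy0, y', hy', hxx.symm, hyy.symm, hxy0,
          fun e => hy'A (e ▸ hA0), fun e => hyA (e ▸ hx'), fun e => hy'A (e ▸ hx'), hk.symm,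
          hcls y' hy' hy'A, hcross x' hx' y0 hy0 hyA, hcross x' hx' y' hy' hy'A, hin x' hx' hxx,
          hBk y0 hy0 y' hy' hyA hy'A hyy.symm⟩⟩
      · left
        push Not at hB1
        refine ⟨y0, hy0, k, ?_, ?_⟩
        · intro x hx hxy
          rw [hu.symm]
          refine hcross x ?_ y0 hy0 hyA
          by_contra hxA
          exact hxy (hB1 x hx hxA)
        · intro x hx y hy hxy hyy hne
          refine hinA x ?_ y ?_ hne
          · by_contra hxA
            exact hxy (hB1 x hx hxA)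
          · by_contra hxA
            exact hyy (hB1 y hy hxA)
    · left
      push Not at hA1
      refine ⟨x0, hx0, k, ?_, ?_⟩
      · intro x hx hxx
        exact hcls x hx fun hxA => hxx (hA1 x hxA)
      · intro x hx y hy hxx hyx hne
        exact hBk x hx y hy (fun hxA => hxx (hA1 x hxA)) (fun hxA => hyx (hA1 y hxA)) hne

/-- if all `r`-subsets have a top leaf then so does `X` (`r ≥ 4`) -/
lemma top_of_all (hu : Ult h) {r : ℕ} (hr : 4 ≤ r) (X : Finset V) (hX : r ≤ X.card)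
    (hall : ∀ F ⊆ X, F.card = r → ∃ b, Top h F b) : ∃ b, Top h X b := by
  rcases trichotomy hu X (by omega) with hb | ⟨k, hmin, ⟨u, hu', v, hv, w, hw, huv, hvw, huw, e1, e2, e3⟩ |
    ⟨x, hx, x', hx', y, hy, y', hy', hxx, hyy, h1, h2, h3, h4, e1, e2, e3, e4, -, -⟩⟩
  · exact hb
  · exfalso
    have hsub : ({u, v, w} : Finset V) ⊆ X := by
      intro x hx
      simp only [mem_insert, mem_singleton] at hx
      rcases hx with rfl | rfl | rfl <;> assumption
    have hc : ({u, v, w} : Finset V).card ≤ r := (card_le_three).trans (by omega)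
    obtain ⟨F, hF1, hF2, hF3⟩ := Finset.exists_subsuperset_card_eq hsub hc hX
    obtain ⟨b, hb⟩ := hall F hF2 hF3
    have huF : u ∈ F := hF1 (by simp)
    have hvF : v ∈ F := hF1 (by simp)
    have hwF : w ∈ F := hF1 (by simp)
    by_cases hub : u = b
    · exact top_no_pair hmin hF2 hb hvF hwF hvw (by rw [← hub]; exact huv.symm)
        (by rw [← hub]; exact huw.symm) e2
    · by_cases hvb : v = b
      · exact top_no_pair hmin hF2 hb huF hwF huw hub (by rw [← hvb]; exact hvw.symm) e3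
      · exact top_no_pair hmin hF2 hb huF hvF huv hub hvb e1
  · exfalso
    have hsub : ({x, x', y, y'} : Finset V) ⊆ X := by
      intro z hz
      simp only [mem_insert, mem_singleton] at hz
      rcases hz with rfl | rfl | rfl | rfl <;> assumption
    have hc : ({x, x', y, y'} : Finset V).card ≤ r := (card_le_four).trans hr
    obtain ⟨F, hF1, hF2, hF3⟩ := Finset.exists_subsuperset_card_eq hsub hc hX
    obtain ⟨b, hb⟩ := hall F hF2 hF3
    have f1 : x ∈ F := hF1 (by simp)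
    have f2 : x' ∈ F := hF1 (by simp)
    have f3 : y ∈ F := hF1 (by simp)
    have f4 : y' ∈ F := hF1 (by simp)
    by_cases g1 : x = b
    · exact top_no_pair hmin hF2 hb f2 f3 h3 (by rw [← g1]; exact hxx.symm)
        (by rw [← g1]; exact h1.symm) e3
    · by_cases g2 : y = b
      · exact top_no_pair hmin hF2 hb f1 f4 h2 g1 (by rw [← g2]; exact hyy.symm) e2
      · exact top_no_pair hmin hF2 hb f1 f3 h1 g1 g2 e1

end Pool.Agent.N481.SY
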