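import Pool.Agent.N481.SY.Wreath

/-!
# Triples and 2-groups: the upper bound
-/

set_option autoImplicit false
set_option linter.unusedSectionVars false

open Finset

namespace Pool.Agent.N481.SY

open Pool.Agent.N584.TI (Arrow AllCol Ram)

section triple

variable {m : ℕ}

lemma zmod2_sub {u v : ZMod 2} (h : u ≠ v) : u - v = 1 := by
  revert u v
  decide

lemma zmod2_eq {u v w : ZMod 2} (h : u ≠ v) (h' : v ≠ w) : u = w := by
  revert u v w
  decide

/-- every triple is equivalent to a triple in the comb -/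
lemma triple_comb {κ : Type*} {c : Finset (Fin m → ZMod 2) → κ} (hc : Inv (Wr 2 m) 3 c)
    {x y z : Fin m → ZMod 2} {i j : Fin m} (hij : i < j) (hx : ∀ k < i, x k = z k)
    (hy : ∀ k < j, y k = z k) (hxi : x i ≠ z i) (hyj : y j ≠ z j) :
    c {x, y, z} = c (insert 0 (({(i : ℕ), (j : ℕ)} : Finset ℕ).image bb)) := by
  have h10 : (1 : ZMod 2) ≠ 0 := by decide
  have hu1 : ∀ k : Fin m, (k : ℕ) < 0 → (- z) k = 0 := fun k hk => absurd hk (Nat.not_lt_zero _)
  have hu2 : ∀ k : Fin m, (k : ℕ) < j + 1 → (bb j - (y - z) : Fin m → ZMod 2) k = 0 := by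
    intro k hk
    rcases Nat.lt_succ_iff_lt_or_eq.1 hk with h | h
    · rw [Pi.sub_apply, Pi.sub_apply, bb_ne (by omega), hy k h, sub_self, sub_self]
    · have hkj : k = j := Fin.ext h
      rw [hkj, Pi.sub_apply, Pi.sub_apply, zmod2_sub hyj]
      show (bb j : Fin m → ZMod 2) ⟨j, j.2⟩ - 1 = 0
      rw [bb_self, sub_self]
  have hu3 : ∀ k : Fin m, (k : ℕ) < i + 1 → (bb i - (x - z) : Fin m → ZMod 2) k = 0 := by
    intro k hk
    rcases Nat.lt_succ_iff_lt_or_eq.1 hk with h | h
    · rw [Pi.sub_apply, Pi.sub_apply, bb_ne (by omega), hx k h, sub_self, sub_self]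
    · have hki : k = i := Fin.ext h
      rw [hki, Pi.sub_apply, Pi.sub_apply, zmod2_sub hxi]
      show (bb i : Fin m → ZMod 2) ⟨i, i.2⟩ - 1 = 0
      rw [bb_self, sub_self]
  obtain ⟨σ, hσ⟩ : ∃ σ, σ = cnd (i + 1) (bb i) (bb i - (x - z)) hu3 *
      (cnd (j + 1) (bb j) (bb j - (y - z)) hu2 * cnd 0 0 (- z) hu1) := ⟨_, rfl⟩
  have hσW : σ ∈ Wr 2 m := by
    rw [hσ]
    exact Subgroup.mul_mem _ (cnd_mem _ _ _ _) (Subgroup.mul_mem _ (cnd_mem _ _ _ _) (cnd_mem _ _ _ _))
  have hσa : ∀ w, σ w = cnd (i + 1) (bb i) (bb i - (x - z)) hu3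
      (cnd (j + 1) (bb j) (bb j - (y - z)) hu2 (w - z)) := by
    intro w
    rw [hσ, Equiv.Perm.mul_apply, Equiv.Perm.mul_apply,
      cnd_pos hu1 (fun k hk => absurd hk (Nat.not_lt_zero _)),
      show w + - z = w - z from (sub_eq_add_neg w z).symm]
  have hbi : (bb i : Fin m → ZMod 2) i = 1 := bb_self i.2
  have hbj : (bb j : Fin m → ZMod 2) j = 1 := bb_self j.2
  have hne : (i : ℕ) ≠ j := fun e => absurd (Fin.ext e) hij.ne
  have hz : σ z = 0 := by
    rw [hσa, sub_self, cnd_neg hu2, cnd_neg hu3]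
    · intro hcon
      have h1 := hcon i (by omega)
      rw [hbi] at h1
      exact h10 h1.symm
    · intro hcon
      have h1 := hcon j (by omega)
      rw [hbj] at h1
      exact h10 h1.symm
  have hyy : σ y = bb j := by
    rw [hσa, cnd_pos hu2, cnd_neg hu3]
    · abel
    · intro hcon
      have h1 := hcon i (by omega)
      rw [hbi] at h1
      have h2 : (y - z + (bb j - (y - z)) : Fin m → ZMod 2) = bb j := by abel
      rw [h2, bb_ne hne] at h1
      exact h10 h1.symm
    · intro k hk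
      rw [Pi.sub_apply]
      rcases Nat.lt_succ_iff_lt_or_eq.1 hk with h | h
      · rw [hy k h, sub_self, bb_ne (by omega)]
      · have hkj : k = j := Fin.ext h
        rw [hkj, zmod2_sub hyj, hbj]
  have hxx : σ x = bb i := by
    rw [hσa, cnd_neg hu2, cnd_pos hu3]
    · abel
    · intro k hk
      rw [Pi.sub_apply]
      rcases Nat.lt_succ_iff_lt_or_eq.1 hk with h | h
      · rw [hx k h, sub_self, bb_ne (by omega)]
      · have hki : k = i := Fin.ext h
        rw [hki, zmod2_sub hxi, hbi]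
    · intro hcon
      have hlt : (i : ℕ) < j := hij
      have h1 := hcon i (by omega)
      rw [Pi.sub_apply, zmod2_sub hxi, bb_ne hne] at h1
      exact h10 h1
  have hxz : x ≠ z := fun e => hxi (by rw [e])
  have hyz : y ≠ z := fun e => hyj (by rw [e])
  have hxy : x ≠ y := by
    intro e
    exact hxi (by rw [e]; exact hy i hij)
  have h1 := hc.wr hσW (F := {x, y, z}) (card_triple hxy hxz hyz)
  rw [← h1]
  congr 1
  rw [image_insert, image_insert, image_singleton, image_insert, image_singleton, hxx, hyy, hz]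
  ext w
  simp only [mem_insert, mem_singleton]
  tauto

/-- the indicator of a set of coordinates -/
def ind (I : Finset ℕ) : Fin m → ZMod 2 := fun j => if (j : ℕ) ∈ I then 1 else 0

theorem triple_arrow {κ : Type*} {t : ℕ} (hA : Arrow (κ := κ) AllCol 2 t m)
    (c : Finset (Fin m → ZMod 2) → κ) (hc : Inv (Wr 2 m) 3 c) :
    ∃ S : Finset (Fin m → ZMod 2), S.card = 2 ^ t ∧ ∃ b, ∀ A ⊆ S, A.card = 3 → c A = b := by
  classical
  obtain ⟨J, hJ, hJn, b, hb⟩ := hA (fun I => c (insert 0 (I.image bb))) trivial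
  have hJm : ∀ i ∈ J, i < m := fun i hi => mem_range.1 (hJ hi)
  have hval : ∀ I : Finset ℕ, ∀ k : Fin m, (ind I : Fin m → ZMod 2) k = 1 ↔ (k : ℕ) ∈ I := by
    intro I k
    unfold ind
    by_cases h : (k : ℕ) ∈ I
    · simp [h]
    · simp [h]
  have hdiff : ∀ x ∈ J.powerset.image (ind : Finset ℕ → Fin m → ZMod 2),
      ∀ y ∈ J.powerset.image (ind : Finset ℕ → Fin m → ZMod 2), ∀ k : Fin m, x k ≠ y k → (k : ℕ) ∈ J := by
    intro x hx y hy k hxy
    obtain ⟨I, hI, rfl⟩ := mem_image.1 hx
    obtain ⟨I', hI', rfl⟩ := mem_image.1 hy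
    by_contra hkJ
    have h1 : (k : ℕ) ∉ I := fun e => hkJ (mem_powerset.1 hI e)
    have h2 : (k : ℕ) ∉ I' := fun e => hkJ (mem_powerset.1 hI' e)
    apply hxy
    unfold ind
    rw [if_neg h1, if_neg h2]
  -- the main step
  have key : ∀ x ∈ J.powerset.image (ind : Finset ℕ → Fin m → ZMod 2),
      ∀ y ∈ J.powerset.image (ind : Finset ℕ → Fin m → ZMod 2),
      ∀ z ∈ J.powerset.image (ind : Finset ℕ → Fin m → ZMod 2), ∀ i : Fin m,
      (∀ k < i, x k = z k ∧ y k = z k) → x i ≠ z i → y i = z i → y ≠ z → c {x, y, z} = b := by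
    intro x hx y hy z hz i hlow hxi hyi hyz
    have hne : (univ.filter (fun k : Fin m => y k ≠ z k)).Nonempty := by
      obtain ⟨k, hk⟩ := Function.ne_iff.1 hyz
      exact ⟨k, by simp [hk]⟩
    obtain ⟨j, hj, hjmin⟩ : ∃ j, y j ≠ z j ∧ ∀ k < j, y k = z k := by
      refine ⟨(univ.filter (fun k : Fin m => y k ≠ z k)).min' hne, ?_, fun k hk => ?_⟩
      · exact (mem_filter.1 (min'_mem _ hne)).2
      · by_contra hcon
        exact absurd (min'_le _ k (by simp [hcon])) (not_le.2 hk)
    have hij : i < j := by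
      by_contra hcon
      rcases lt_or_eq_of_le (not_lt.1 hcon) with h | h
      · exact hj (hlow j h).2
      · exact hj (by rw [h]; exact hyi)
    rw [triple_comb hc hij (fun k hk => (hlow k hk).1) hjmin hxi hj]
    have hiJ := hdiff x hx z hz i hxi
    have hjJ := hdiff y hy z hz j hj
    apply hb {(i : ℕ), (j : ℕ)}
    · intro w hw
      simp only [mem_insert, mem_singleton] at hw
      rcases hw with rfl | rfl
      · exact hiJ
      · exact hjJ
    · exact card_pair (fun e => absurd (Fin.ext e) hij.ne)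
  refine ⟨J.powerset.image ind, ?_, b, ?_⟩
  · rw [card_image_of_injOn, card_powerset, hJn]
    intro I hI I' hI' e
    rw [Finset.mem_coe, mem_powerset] at hI hI'
    ext k
    constructor
    · intro hk
      have h1 := (hval I ⟨k, hJm k (hI hk)⟩).2 hk
      rw [e] at h1
      exact (hval I' ⟨k, hJm k (hI hk)⟩).1 h1
    · intro hk
      have h1 := (hval I' ⟨k, hJm k (hI' hk)⟩).2 hk
      rw [← e] at h1
      exact (hval I ⟨k, hJm k (hI' hk)⟩).1 h1
  · intro A hAS hAc
    obtain ⟨a, a', d, h1, h2, h3, rfl⟩ := Finset.card_eq_three.1 hAc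
    have ha := hAS (show a ∈ ({a, a', d} : Finset (Fin m → ZMod 2)) by simp)
    have ha' := hAS (show a' ∈ ({a, a', d} : Finset (Fin m → ZMod 2)) by simp)
    have hd := hAS (show d ∈ ({a, a', d} : Finset (Fin m → ZMod 2)) by simp)
    have hne : (univ.filter (fun k : Fin m => ¬ (a k = a' k ∧ a' k = d k))).Nonempty := by
      obtain ⟨k, hk⟩ := Function.ne_iff.1 h1
      exact ⟨k, by simp [hk]⟩
    obtain ⟨i, hi, himin⟩ : ∃ i, ¬ (a i = a' i ∧ a' i = d i) ∧ ∀ k < i, a k = a' k ∧ a' k = d k := by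
      refine ⟨(univ.filter (fun k : Fin m => ¬ (a k = a' k ∧ a' k = d k))).min' hne, ?_, fun k hk => ?_⟩
      · exact (mem_filter.1 (min'_mem _ hne)).2
      · by_contra hcon
        exact absurd (min'_le _ k (by simp only [mem_filter, mem_univ, true_and]; exact hcon)) (not_le.2 hk)
    by_cases e1 : a i = a' i
    · -- `d` is alone
      have e2 : a' i ≠ d i := fun e => hi ⟨e1, e⟩
      have h4 := key d hd a ha a' ha' i (fun k hk => ⟨(himin k hk).2.symm, (himin k hk).1⟩)
        (Ne.symm e2) e1 h1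
      rw [← h4]
      congr 1
      ext w
      simp only [mem_insert, mem_singleton]
      tauto
    · by_cases e2 : a' i = d i
      · -- `a` is alone
        have h4 := key a ha a' ha' d hd i (fun k hk => ⟨(himin k hk).1.trans (himin k hk).2,
          (himin k hk).2⟩) (by rw [← e2]; exact e1) e2 h3
        exact h4
      · -- `a'` is alone
        have e3 : a i = d i := zmod2_eq e1 e2
        have h4 := key a' ha' a ha d hd i (fun k hk => ⟨(himin k hk).2,
          (himin k hk).1.trans (himin k hk).2⟩) e2 e3 h2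
        rw [← h4]
        congr 1
        ext w
        simp only [mem_insert, mem_singleton]
        tauto

end triple

end Pool.Agent.N481.SY
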