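import Pool.Agent.N481.SY.Main
import Pool.Agent.N584.TI.Final

/-!
# The upper bounds: the group of all triangular permutations
-/

set_option autoImplicit false
set_option linter.unusedSectionVars false

open Finset

namespace Pool.Agent.N481.SY

open Pool.Agent.N584.TI (Arrow AllCol Ram)

section wreath

variable (p m : ℕ)

/-- the permutations of `(ZMod p) ^ m` for which the change of the `i`-th coordinate depends only on
the coordinates before `i` -/
def Wr : Subgroup (Equiv.Perm (Fin m → ZMod p)) where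
  carrier := {σ | ∀ (i : Fin m) (x y : Fin m → ZMod p), (∀ j < i, x j = y j) →
    σ x i - x i = σ y i - y i}
  mul_mem' := by
    intro σ τ hσ hτ i x y hxy
    have h1 : ∀ j < i, τ x j = τ y j := by
      intro j hj
      have h2 := hτ j x y (fun l hl => hxy l (lt_trans hl hj))
      rw [hxy j hj] at h2
      exact sub_left_inj.1 h2
    have h3 := hσ i (τ x) (τ y) h1
    have h4 := hτ i x y hxy
    show σ (τ x) i - x i = σ (τ y) i - y i
    linear_combination h3 + h4
  one_mem' := by
    intro i x y _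
    simp
  inv_mem' := by
    intro σ hσ i x y hxy
    have h0 : ∀ z, σ (σ⁻¹ z) = z := fun z => by simp
    have h1 : ∀ n : ℕ, ∀ j < i, (j : ℕ) = n → σ⁻¹ x j = σ⁻¹ y j := by
      intro n
      induction n using Nat.strong_induction_on with
      | _ n ih =>
        intro j hj hjn
        have h2 := hσ j (σ⁻¹ x) (σ⁻¹ y) (fun l hl => ih l (by
          rw [← hjn]; exact hl) l (lt_trans hl hj) rfl)
        rw [h0, h0, hxy j hj] at h2
        exact sub_right_inj.1 h2
    have h2 := hσ i (σ⁻¹ x) (σ⁻¹ y) (fun j hj => h1 j j hj rfl)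
    rw [h0, h0] at h2
    linear_combination - h2

variable {p m}

lemma Wr_fix [hp : Fact p.Prime] {σ : Equiv.Perm (Fin m → ZMod p)} (hσ : σ ∈ Wr p m) (k : ℕ) :
    ∀ (x : Fin m → ZMod p) (j : Fin m), (j : ℕ) < k → (σ ^ (p ^ k)) x j = x j := by
  induction k with
  | zero => intro x j hj; omega
  | succ k ih =>
    obtain ⟨τ, hτ⟩ : ∃ τ, τ = σ ^ (p ^ k) := ⟨_, rfl⟩
    have hτW : τ ∈ Wr p m := by rw [hτ]; exact Subgroup.pow_mem _ hσ _
    rw [← hτ] at ih
    have h1 : ∀ (a : ℕ) (x : Fin m → ZMod p), (∀ j : Fin m, (j : ℕ) < k → (τ ^ a) x j = x j) ∧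
        ∀ j : Fin m, (j : ℕ) = k → (τ ^ a) x j = x j + a * (τ x j - x j) := by
      intro a
      induction a with
      | zero => intro x; simp
      | succ a iha =>
        intro x
        obtain ⟨g1, g2⟩ := iha x
        have e : ∀ j, (τ ^ (a + 1)) x j = τ ((τ ^ a) x) j := by
          intro j
          rw [pow_succ', Equiv.Perm.mul_apply]
        refine ⟨fun j hj => ?_, fun j hj => ?_⟩
        · rw [e, ih _ j hj, g1 j hj]
        · rw [e]
          have h2 := hτW j ((τ ^ a) x) x (fun l hl => g1 l (by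
            have : (l : ℕ) < j := hl
            omega))
          have h3 := g2 j hj
          push_cast
          linear_combination h2 + h3
    intro x j hj
    have e1 : σ ^ (p ^ (k + 1)) = τ ^ p := by rw [hτ, ← pow_mul, pow_succ]
    rw [e1]
    rcases Nat.lt_succ_iff_lt_or_eq.1 hj with h2 | h2
    · exact (h1 p x).1 j h2
    · rw [(h1 p x).2 j h2]
      simp

theorem Wr_pgroup [hp : Fact p.Prime] : IsPGroup p (Wr p m) := by
  rintro ⟨σ, hσ⟩
  refine ⟨m, Subtype.ext (Equiv.ext fun x => funext fun j => ?_)⟩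
  exact Wr_fix hσ m x j j.2

/-- add `u` to all points which agree with `v` below `i` -/
def cnd (i : ℕ) (v u : Fin m → ZMod p) (hu : ∀ j : Fin m, (j : ℕ) < i → u j = 0) :
    Equiv.Perm (Fin m → ZMod p) where
  toFun x := if ∀ j : Fin m, (j : ℕ) < i → x j = v j then x + u else x
  invFun x := if ∀ j : Fin m, (j : ℕ) < i → x j = v j then x - u else x
  left_inv := by
    intro x
    by_cases h : ∀ j : Fin m, (j : ℕ) < i → x j = v j
    · have h' : ∀ j : Fin m, (j : ℕ) < i → (x + u) j = v j := by
        intro j hj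
        rw [Pi.add_apply, hu j hj, add_zero, h j hj]
      simp only [if_pos h, if_pos h', add_sub_cancel_right]
    · simp only [if_neg h]
  right_inv := by
    intro x
    by_cases h : ∀ j : Fin m, (j : ℕ) < i → x j = v j
    · have h' : ∀ j : Fin m, (j : ℕ) < i → (x - u) j = v j := by
        intro j hj
        rw [Pi.sub_apply, hu j hj, sub_zero, h j hj]
      simp only [if_pos h, if_pos h', sub_add_cancel]
    · simp only [if_neg h]

lemma cnd_pos {i : ℕ} {v u : Fin m → ZMod p} (hu : ∀ j : Fin m, (j : ℕ) < i → u j = 0)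
    {x : Fin m → ZMod p} (h : ∀ j : Fin m, (j : ℕ) < i → x j = v j) :
    cnd i v u hu x = x + u := if_pos h

lemma cnd_neg {i : ℕ} {v u : Fin m → ZMod p} (hu : ∀ j : Fin m, (j : ℕ) < i → u j = 0)
    {x : Fin m → ZMod p} (h : ¬ ∀ j : Fin m, (j : ℕ) < i → x j = v j) :
    cnd i v u hu x = x := if_neg h

lemma cnd_mem (i : ℕ) (v u : Fin m → ZMod p) (hu : ∀ j : Fin m, (j : ℕ) < i → u j = 0) :
    cnd i v u hu ∈ Wr p m := by
  intro k x y hxy
  by_cases hk : (k : ℕ) < i
  · have h1 : ∀ z : Fin m → ZMod p, cnd i v u hu z k - z k = 0 := by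
      intro z
      by_cases h : ∀ j : Fin m, (j : ℕ) < i → z j = v j
      · rw [cnd_pos hu h, Pi.add_apply, hu k hk]; ring
      · rw [cnd_neg hu h]; ring
    rw [h1, h1]
  · have h2 : (∀ j : Fin m, (j : ℕ) < i → x j = v j) ↔ ∀ j : Fin m, (j : ℕ) < i → y j = v j := by
      have h3 : ∀ j : Fin m, (j : ℕ) < i → x j = y j := fun j hj => hxy j (by
        show (j : ℕ) < k
        omega)
      exact ⟨fun h j hj => by rw [← h3 j hj, h j hj], fun h j hj => by rw [h3 j hj, h j hj]⟩
    by_cases h : ∀ j : Fin m, (j : ℕ) < i → x j = v j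
    · rw [cnd_pos hu h, cnd_pos hu (h2.1 h), Pi.add_apply, Pi.add_apply]; ring
    · rw [cnd_neg hu h, cnd_neg hu (fun e => h (h2.2 e))]; ring

lemma Inv.wr {r : ℕ} {κ : Type*} {c : Finset (Fin m → ZMod p) → κ} (hc : Inv (Wr p m) r c)
    {σ : Equiv.Perm (Fin m → ZMod p)} (hσ : σ ∈ Wr p m) {F : Finset (Fin m → ZMod p)}
    (hF : F.card = r) : c (F.image σ) = c F :=
  hc ⟨σ, hσ⟩ F hF

/-- the comb -/
def bb (i : ℕ) : Fin m → ZMod p := fun j => if (j : ℕ) = i then 1 else 0

lemma bb_self {i : ℕ} (hi : i < m) : (bb i : Fin m → ZMod p) ⟨i, hi⟩ = 1 := by simp [bb]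

lemma bb_ne {i : ℕ} {j : Fin m} (h : (j : ℕ) ≠ i) : (bb i : Fin m → ZMod p) j = 0 := by simp [bb, h]

/-- the colour of the sets in the comb -/
theorem comb_arrow [hp : Fact p.Prime] {κ : Type*} {r n : ℕ} (hA : Arrow (κ := κ) AllCol r n m)
    (c : Finset (Fin m → ZMod p) → κ) (hc : Inv (Wr p m) (r + 1) c) :
    ∃ S : Finset (Fin m → ZMod p), S.card = n + 1 ∧ ∃ b, ∀ A ⊆ S, A.card = r + 1 → c A = b := by
  classical
  have h10 : (1 : ZMod p) ≠ 0 := one_ne_zero
  obtain ⟨J, hJ, hJn, b, hb⟩ := hA (fun I => c (insert 0 (I.image bb))) trivial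
  have hJm : ∀ i ∈ J, i < m := fun i hi => mem_range.1 (hJ hi)
  have hinj : ∀ i ∈ J, ∀ j ∈ J, (bb i : Fin m → ZMod p) = bb j → i = j := by
    intro i hi j hj e
    by_contra hne
    have h1 := congrFun e ⟨i, hJm i hi⟩
    rw [bb_self, bb_ne (by simpa using hne)] at h1
    exact h10 h1
  have hinj' : Set.InjOn (bb : ℕ → Fin m → ZMod p) J := fun i hi j hj e => hinj i hi j hj e
  have h0 : ∀ i ∈ J, (bb i : Fin m → ZMod p) ≠ 0 := by
    intro i hi e
    have h1 := congrFun e ⟨i, hJm i hi⟩
    rw [bb_self] at h1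
    exact h10 h1
  have h0' : ∀ I ⊆ J, (0 : Fin m → ZMod p) ∉ I.image bb := by
    intro I hI e
    obtain ⟨i, hi, e'⟩ := mem_image.1 e
    exact h0 i (hI hi) e'
  refine ⟨insert 0 (J.image bb), ?_, b, ?_⟩
  · rw [card_insert_of_notMem (h0' J (Subset.refl _)), card_image_of_injOn hinj', hJn]
  · intro A hAS hAc
    by_cases hA0 : (0 : Fin m → ZMod p) ∈ A
    · -- `A` contains the last leaf
      have hsub : A.erase 0 ⊆ J.image bb := by
        intro x hx
        have := hAS (mem_of_mem_erase hx)
        rw [mem_insert] at this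
        rcases this with e | e
        · exact absurd e (ne_of_mem_erase hx)
        · exact e
      obtain ⟨I, hI, hIe⟩ := subset_image_iff.1 hsub
      have hI' : I ⊆ J := by exact_mod_cast hI
      have hAe : A = insert 0 (I.image bb) := by rw [hIe, insert_erase hA0]
      have hIc : I.card = r := by
        have h1 := hAc
        rw [hAe, card_insert_of_notMem (h0' I hI'), card_image_of_injOn (hinj'.mono (by exact_mod_cast hI'))] at h1
        omega
      rw [hAe]
      exact hb I hI' hIc
    · have hsub : A ⊆ J.image bb := by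
        intro x hx
        have := hAS hx
        rw [mem_insert] at this
        rcases this with e | e
        · exact absurd (e ▸ hx) hA0
        · exact e
      obtain ⟨I, hI, hIe⟩ := subset_image_iff.1 hsub
      have hI' : I ⊆ J := by exact_mod_cast hI
      have hIc : I.card = r + 1 := by
        rw [← hIe, card_image_of_injOn (hinj'.mono (by exact_mod_cast hI'))] at hAc
        exact hAc
      have hIne : I.Nonempty := card_pos.1 (by omega)
      obtain ⟨k, hk, hkmax⟩ : ∃ k ∈ I, ∀ i ∈ I, i ≤ k := ⟨I.max' hIne, I.max'_mem hIne, fun i hi => I.le_max' i hi⟩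
      have hkm : k < m := hJm k (hI' hk)
      have hu : ∀ j : Fin m, (j : ℕ) < k → (- bb k : Fin m → ZMod p) j = 0 := by
        intro j hj
        rw [Pi.neg_apply, bb_ne (by omega), neg_zero]
      have h1 := hc.wr (cnd_mem k 0 (- bb k) hu) hAc
      rw [← h1]
      have h2 : cnd k 0 (- bb k) hu (bb k) = 0 := by
        rw [cnd_pos hu (fun j hj => by rw [bb_ne (by omega)]; rfl)]
        exact add_neg_cancel _
      have h3 : ∀ i ∈ I, i ≠ k → cnd k 0 (- bb k) hu (bb i) = bb i := by
        intro i hi hik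
        rw [cnd_neg hu]
        intro hcon
        have hik' : i < k := lt_of_le_of_ne (hkmax i hi) hik
        have h4 := hcon ⟨i, by omega⟩ hik'
        rw [bb_self] at h4
        exact h10 h4
      have h5 : A.image (cnd k 0 (- bb k) hu) = insert 0 ((I.erase k).image bb) := by
        rw [← hIe]
        ext x
        simp only [mem_image, mem_insert, mem_erase]
        constructor
        · rintro ⟨y, ⟨i, hi, rfl⟩, rfl⟩
          by_cases hik : i = k
          · left; rw [hik]; exact h2
          · right; exact ⟨i, ⟨hik, hi⟩, (h3 i hi hik).symm⟩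
        · rintro (rfl | ⟨i, ⟨hik, hi⟩, rfl⟩)
          · exact ⟨bb k, ⟨k, hk, rfl⟩, h2⟩
          · exact ⟨bb i, ⟨i, hi, rfl⟩, h3 i hi hik⟩
      rw [h5]
      exact hb (I.erase k) ((erase_subset _ _).trans hI') (by rw [card_erase_of_mem hk, hIc]; rfl)

end wreath

end Pool.Agent.N481.SY
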