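import Pool.Agent.N481.SY.Inv

/-!
# The cyclic group of order `2 ^ m`
-/

set_option autoImplicit false
set_option linter.unusedSectionVars false

open Finset

namespace Pool.Agent.N481.SY

section Zm

variable (m : ℕ)

lemma two_pow_zero : (2 : ZMod (2 ^ m)) ^ m = 0 := by
  have := ZMod.natCast_self (2 ^ m)
  push_cast at this
  exact this

lemma two_pow_ne {i : ℕ} (hi : i < m) : (2 : ZMod (2 ^ m)) ^ i ≠ 0 := by
  intro e
  have h1 : ((2 ^ i : ℕ) : ZMod (2 ^ m)) = 0 := by push_cast; exact e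
  rw [ZMod.natCast_eq_zero_iff] at h1
  have h2 := Nat.le_of_dvd (by positivity) h1
  have h3 : 2 ^ i < 2 ^ m := Nat.pow_lt_pow_right (by norm_num) hi
  omega

lemma even_or_odd' (w : ZMod (2 ^ m)) : (∃ e, w = 2 * e) ∨ ∃ e, w = 2 * e + 1 := by
  have : NeZero (2 ^ m) := ⟨by positivity⟩
  obtain ⟨k, hk⟩ : ∃ k : ℕ, w = (k : ZMod (2 ^ m)) := ⟨w.val, by simp⟩
  rcases Nat.even_or_odd' k with ⟨l, hl | hl⟩
  · left; exact ⟨l, by rw [hk, hl]; push_cast; ring⟩
  · right; exact ⟨l, by rw [hk, hl]; push_cast; ring⟩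

lemma odd_unit (e : ZMod (2 ^ m)) : IsUnit (2 * e + 1) := by
  have h1 : IsNilpotent (2 * e) := ⟨m, by rw [mul_pow, two_pow_zero, zero_mul]⟩
  exact IsNilpotent.isUnit_add_one h1

open Classical in
/-- the 2-adic valuation of the difference -/
noncomputable def vl (x y : ZMod (2 ^ m)) : ℕ :=
  Nat.findGreatest (fun i => (2 : ZMod (2 ^ m)) ^ i ∣ x - y) m

lemma vl_dvd (x y : ZMod (2 ^ m)) : (2 : ZMod (2 ^ m)) ^ (vl m x y) ∣ x - y := by
  classical
  have := Nat.findGreatest_spec (P := fun i => (2 : ZMod (2 ^ m)) ^ i ∣ x - y) (n := m)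
    (Nat.zero_le m) (by simp)
  unfold vl
  convert this using 3

lemma le_vl {x y : ZMod (2 ^ m)} {i : ℕ} (hi : i ≤ m) (h : (2 : ZMod (2 ^ m)) ^ i ∣ x - y) :
    i ≤ vl m x y := by
  classical
  unfold vl
  exact Nat.le_findGreatest hi h

lemma vl_le (x y : ZMod (2 ^ m)) : vl m x y ≤ m := by
  classical
  unfold vl
  exact Nat.findGreatest_le m

lemma vl_lt {x y : ZMod (2 ^ m)} (h : x ≠ y) : vl m x y < m := by
  refine lt_of_le_of_ne (vl_le m x y) (fun e => h ?_)
  have h1 := vl_dvd m x y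
  rw [e, two_pow_zero, zero_dvd_iff] at h1
  exact sub_eq_zero.1 h1

lemma vl_symm (x y : ZMod (2 ^ m)) : vl m x y = vl m y x := by
  apply le_antisymm
  · exact le_vl m (vl_le m x y) (by rw [← neg_sub, dvd_neg]; exact vl_dvd m x y)
  · exact le_vl m (vl_le m y x) (by rw [← neg_sub, dvd_neg]; exact vl_dvd m y x)

lemma vl_ult : Ult (vl m) := by
  refine ⟨vl_symm m, fun x y z _ _ _ => ?_⟩
  refine le_vl m ((min_le_left _ _).trans (vl_le m x y)) ?_
  have e : x - z = (x - y) + (y - z) := by ring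
  rw [e]
  exact dvd_add ((pow_dvd_pow _ (min_le_left _ _)).trans (vl_dvd m x y))
    ((pow_dvd_pow _ (min_le_right _ _)).trans (vl_dvd m y z))

/-- the odd part of the difference -/
lemma vl_odd {x y : ZMod (2 ^ m)} (h : x ≠ y) : ∃ e, x - y = 2 ^ (vl m x y) * (2 * e + 1) := by
  obtain ⟨w, hw⟩ := vl_dvd m x y
  rcases even_or_odd' m w with ⟨e, he⟩ | ⟨e, he⟩
  · exfalso
    have h1 := vl_lt m h
    have h2 := le_vl m (x := x) (y := y) (i := vl m x y + 1) (by omega)
      ⟨e, by rw [hw, he]; generalize vl m x y = v; ring⟩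
    omega
  · exact ⟨e, by rw [← he]; exact hw⟩

lemma vl_two (E : Finset (ZMod (2 ^ m))) (j : ℕ) (hE : ∀ x ∈ E, ∀ y ∈ E, x ≠ y → vl m x y = j) :
    E.card ≤ 2 := by
  by_contra hcon
  obtain ⟨x, y, z, hx, hy, hz, h1, h2, h3⟩ := Finset.two_lt_card_iff.1 (show 2 < E.card by omega)
  obtain ⟨e, he⟩ := vl_odd m h1
  obtain ⟨f, hf⟩ := vl_odd m h3
  rw [hE x hx y hy h1] at he
  rw [hE y hy z hz h3] at hf
  have h4 := hE x hx z hz h2
  have h5 := vl_lt m h2
  have h6 := le_vl m (x := x) (y := z) (i := j + 1) (by omega)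
    ⟨e + f + 1, by
      have : x - z = (x - y) + (y - z) := by ring
      rw [this, he, hf]; ring⟩
  omega

open Classical in
/-- the sign: is the odd part of `x - y` congruent to 1 modulo 4? -/
noncomputable def sg (x y : ZMod (2 ^ m)) : Bool :=
  decide (∃ e, x - y = 2 ^ (vl m x y) * (4 * e + 1))

lemma sg_anti : Anti (vl m) (sg m) := by
  classical
  intro x y z hxy hxz hlt
  have hv : vl m x y + 1 < m := by
    have := vl_lt m hxz
    omega
  have hno : ¬ (sg m x y = true ∧ sg m y x = true) := by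
    rintro ⟨h1, h2⟩
    unfold sg at h1 h2
    rw [decide_eq_true_eq] at h1 h2
    obtain ⟨e, he⟩ := h1
    obtain ⟨f, hf⟩ := h2
    rw [vl_symm m y x] at hf
    have h3 : (2 : ZMod (2 ^ m)) ^ (vl m x y + 1) * (2 * (e + f) + 1) = 0 := by
      have : (x - y) + (y - x) = 0 := by ring
      rw [he, hf] at this
      rw [← this]
      generalize vl m x y = v
      ring
    have h4 := (odd_unit m (e + f)).mul_left_eq_zero.1 h3
    exact two_pow_ne m hv h4
  have hyes : sg m x y = true ∨ sg m y x = true := by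
    obtain ⟨e, he⟩ := vl_odd m hxy
    rcases even_or_odd' m e with ⟨f, hf⟩ | ⟨f, hf⟩
    · left
      unfold sg
      rw [decide_eq_true_eq]
      refine ⟨f, ?_⟩
      rw [he, hf]
      generalize vl m x y = v
      ring
    · right
      unfold sg
      rw [decide_eq_true_eq, vl_symm m y x]
      refine ⟨- f - 1, ?_⟩
      rw [← neg_sub, he, hf]
      generalize vl m x y = v
      ring
  cases h1 : sg m x y <;> cases h2 : sg m y x <;> simp_all

/-! ## The affine maps -/

variable {m}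

lemma vl_affine {a : ZMod (2 ^ m)} (ha : IsUnit a) (t x y : ZMod (2 ^ m)) :
    vl m (a * x + t) (a * y + t) = vl m x y := by
  have e : (a * x + t) - (a * y + t) = a * (x - y) := by ring
  unfold vl
  rw [e]
  congr 1
  ext i
  exact ha.dvd_mul_left

lemma affine_inj {a : ZMod (2 ^ m)} (ha : IsUnit a) (t : ZMod (2 ^ m)) :
    Function.Injective (fun x => a * x + t) := by
  intro x y e
  exact ha.mul_left_cancel (add_right_cancel e)

/-- the change of the signs under an affine map is constant below the last level -/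
lemma sg_affine {a : ZMod (2 ^ m)} (ha : IsUnit a) (t : ZMod (2 ^ m)) :
    (∃ φ, Flip (vl m) (sg m) (sg m) (fun x => a * x + t) φ) ∧
    ((∃ b, a = 4 * b + 1) → Flip (vl m) (sg m) (sg m) (fun x => a * x + t) false) := by
  classical
  -- the case `a = 4 b + 1`
  have key : ∀ b x y : ZMod (2 ^ m), ∀ v : ℕ, (∃ e, x - y = 2 ^ v * (4 * e + 1)) →
      ∃ e, (4 * b + 1) * (x - y) = 2 ^ v * (4 * e + 1) := by
    rintro b x y v ⟨e, he⟩
    exact ⟨4 * b * e + b + e, by rw [he]; ring⟩
  have case1 : ∀ b : ZMod (2 ^ m), a = 4 * b + 1 →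
      Flip (vl m) (sg m) (sg m) (fun x => a * x + t) false := by
    intro b hb c x y _ _ _
    rw [Bool.xor_false]
    have e1 : (a * c + t) - (a * x + t) = a * (c - x) := by ring
    have iff1 : (∃ e, a * (c - x) = 2 ^ (vl m c x) * (4 * e + 1)) ↔
        ∃ e, c - x = 2 ^ (vl m c x) * (4 * e + 1) := by
      constructor
      · rintro ⟨e, he⟩
        -- the inverse is also of this form
        obtain ⟨u, hu⟩ := odd_unit m (2 * b)
        have hu1 : (4 * b + 1) * (↑u⁻¹ : ZMod (2 ^ m)) = 1 := by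
          have : (2 * (2 * b) + 1 : ZMod (2 ^ m)) * (↑u⁻¹ : ZMod (2 ^ m)) = 1 := by
            rw [← hu]; simp
          linear_combination this
        have hu2 : (↑u⁻¹ : ZMod (2 ^ m)) = 4 * (- b * (↑u⁻¹ : ZMod (2 ^ m))) + 1 := by
          calc (↑u⁻¹ : ZMod (2 ^ m)) = (4 * b + 1) * (↑u⁻¹ : ZMod (2 ^ m)) + 4 * (- b * (↑u⁻¹ : ZMod (2 ^ m))) := by ring
            _ = _ := by rw [hu1]; ring
        refine ⟨4 * (- b * (↑u⁻¹ : ZMod (2 ^ m))) * e + (- b * (↑u⁻¹ : ZMod (2 ^ m))) + e, ?_⟩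
        calc c - x = ((4 * b + 1) * (↑u⁻¹ : ZMod (2 ^ m))) * (c - x) := by rw [hu1, one_mul]
          _ = (↑u⁻¹ : ZMod (2 ^ m)) * (a * (c - x)) := by rw [hb]; ring
          _ = (4 * (- b * (↑u⁻¹ : ZMod (2 ^ m))) + 1) * (2 ^ (vl m c x) * (4 * e + 1)) := by
              rw [he, ← hu2]
          _ = _ := by ring
      · intro he
        rw [hb]
        exact key b c x _ he
    unfold sg
    simp only []
    rw [e1, vl_affine ha]
    exact decide_eq_decide.2 iff1
  refine ⟨?_, fun ⟨b, hb⟩ => case1 b hb⟩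
  -- `a` is odd
  by_cases hm : m ≤ 1
  · -- no pair of non-maximal level
    refine ⟨false, fun c x y _ hxy hlt => ?_⟩
    have := vl_lt m hxy
    omega
  obtain ⟨d, hd⟩ : ∃ d, a = 2 * d + 1 := by
    rcases even_or_odd' m a with ⟨d, hd⟩ | hd
    · exfalso
      have h1 : a * 2 ^ (m - 1) = 0 := by
        have e2 : m = (m - 1) + 1 := by omega
        have e3 : (2 : ZMod (2 ^ m)) ^ (m - 1) * 2 = 0 := by
          rw [← pow_succ, ← e2, two_pow_zero]
        calc a * 2 ^ (m - 1) = d * (2 ^ (m - 1) * 2) := by rw [hd]; ring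
          _ = 0 := by rw [e3, mul_zero]
      exact two_pow_ne m (show m - 1 < m by omega) (ha.mul_right_eq_zero.1 h1)
    · exact hd
  rcases even_or_odd' m d with ⟨b, hb⟩ | ⟨b, hb⟩
  · exact ⟨false, case1 b (by rw [hd, hb]; ring)⟩
  · -- `a = 4 b + 3`
    refine ⟨true, fun c x y hcx hxy hlt => ?_⟩
    rw [Bool.xor_true]
    -- `- a = 4 (- b - 1) + 1`
    have hna : (-a) = 4 * (- b - 1) + 1 := by rw [hd, hb]; ring
    have hcy : c ≠ y := by
      rintro rfl
      rw [vl_symm m x c] at hlt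
      omega
    have hcy2 : vl m c x < vl m x c ∨ vl m c x = vl m x c := Or.inr (vl_symm m c x)
    -- a point `z` with `vl c x < vl c z`
    have hanti : sg m c x ≠ sg m x c := by
      have h1 := sg_anti m x c y (Ne.symm hcx) hxy (by rw [vl_symm m x c]; exact hlt)
      exact fun e => h1 e.symm
    have hanti' : sg m (a * c + t) (a * x + t) ≠ sg m (a * x + t) (a * c + t) := by
      have h1 := sg_anti m (a * x + t) (a * c + t) (a * y + t)
        (fun e => hcx (affine_inj ha t e).symm) (fun e => hxy (affine_inj ha t e))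
        (by rw [vl_affine ha, vl_affine ha, vl_symm m x c]; exact hlt)
      exact fun e => h1 e.symm
    -- the affine map with `- a` does not change the sign
    have h2 : sg m (a * x + t) (a * c + t) = sg m c x := by
      have iff1 : (∃ e, (a * x + t) - (a * c + t) = 2 ^ (vl m c x) * (4 * e + 1)) ↔
          ∃ e, c - x = 2 ^ (vl m c x) * (4 * e + 1) := by
        have e1 : (a * x + t) - (a * c + t) = (4 * (- b - 1) + 1) * (c - x) := by
          rw [← hna]; ring
        rw [e1]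
        constructor
        · rintro ⟨e, he⟩
          obtain ⟨u, hu⟩ := odd_unit m (2 * (- b - 1))
          have hu1 : (4 * (- b - 1) + 1) * (↑u⁻¹ : ZMod (2 ^ m)) = 1 := by
            have : (2 * (2 * (- b - 1)) + 1 : ZMod (2 ^ m)) * (↑u⁻¹ : ZMod (2 ^ m)) = 1 := by
              rw [← hu]; simp
            linear_combination this
          have hu2 : (↑u⁻¹ : ZMod (2 ^ m)) = 4 * (- (- b - 1) * (↑u⁻¹ : ZMod (2 ^ m))) + 1 := by
            calc (↑u⁻¹ : ZMod (2 ^ m)) = (4 * (- b - 1) + 1) * (↑u⁻¹ : ZMod (2 ^ m))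
                  + 4 * (- (- b - 1) * (↑u⁻¹ : ZMod (2 ^ m))) := by ring
              _ = _ := by rw [hu1]; ring
          refine ⟨4 * (- (- b - 1) * (↑u⁻¹ : ZMod (2 ^ m))) * e
            + (- (- b - 1) * (↑u⁻¹ : ZMod (2 ^ m))) + e, ?_⟩
          calc c - x = ((4 * (- b - 1) + 1) * (↑u⁻¹ : ZMod (2 ^ m))) * (c - x) := by rw [hu1, one_mul]
            _ = (↑u⁻¹ : ZMod (2 ^ m)) * ((4 * (- b - 1) + 1) * (c - x)) := by ring
            _ = (4 * (- (- b - 1) * (↑u⁻¹ : ZMod (2 ^ m))) + 1) * (2 ^ (vl m c x) * (4 * e + 1)) := by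
                rw [he, ← hu2]
            _ = _ := by ring
        · intro he
          exact key (- b - 1) c x _ he
      unfold sg
      rw [vl_affine ha, vl_symm m x c]
      exact decide_eq_decide.2 iff1
    show sg m (a * c + t) (a * x + t) = ! sg m c x
    rw [h2] at hanti'
    revert hanti'
    cases sg m (a * c + t) (a * x + t) <;> cases sg m c x <;> simp

end Zm

end Pool.Agent.N481.SY
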